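import Pool.Agent.Work.MP_9999b5_ms.Defs

set_option autoImplicit false

namespace Pool.Agent.Work.MaxSums.helper84Div

open Finset

variable {ι : Type} [DecidableEq ι]

lemma compl_mem {D S : Finset ι} {k : ℕ} (hD : D.card = 2 * k) (hS : S ∈ D.powersetCard k) :
    D \ S ∈ D.powersetCard k := by
  have h := Finset.mem_powersetCard.1 hS
  refine Finset.mem_powersetCard.2 ⟨Finset.sdiff_subset, ?_⟩
  rw [Finset.card_sdiff_of_subset h.1]
  omega

lemma compl_inj {D : Finset ι} {S T : Finset ι} (hS : S ⊆ D) (hT : T ⊆ D)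
    (h : D \ S = D \ T) : S = T := by
  rw [← Finset.sdiff_sdiff_eq_self hS, ← Finset.sdiff_sdiff_eq_self hT, h]

/-- positive total: half of the `k`-subsets of a `2k`-set are positive -/
lemma half (x : ι → ℝ) (D : Finset ι) (k : ℕ) (hD : D.card = 2 * k) (hs : 0 < ∑ i ∈ D, x i) :
    (2 * k).choose k ≤ 2 * pos x D k := by
  have h1 := Finset.card_filter_add_card_filter_not (s := D.powersetCard k)
    (fun S => 0 < ∑ i ∈ S, x i)
  rw [Finset.card_powersetCard, hD] at h1
  have h2 : ((D.powersetCard k).filter (fun S => ¬ 0 < ∑ i ∈ S, x i)).card ≤ pos x D k := by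
    unfold pos
    apply Finset.card_le_card_of_injOn (fun S => D \ S)
    · intro S hS
      have hS' := Finset.mem_filter.1 hS
      refine Finset.mem_coe.2 (Finset.mem_filter.2 ⟨compl_mem hD hS'.1, ?_⟩)
      have h3 := Finset.sum_sdiff (f := x) (Finset.mem_powersetCard.1 hS'.1).1
      have h4 := not_lt.1 hS'.2
      linarith
    · intro S hS T hT h
      exact compl_inj (Finset.mem_powersetCard.1 (Finset.mem_filter.1 hS).1).1
        (Finset.mem_powersetCard.1 (Finset.mem_filter.1 hT).1).1 h
  unfold pos at h2 ⊢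
  omega

/-- at most half of the `k`-subsets of a `2k`-set have sum zero -/
lemma zero_le (x : ι → ℝ) (D : Finset ι) (k : ℕ) (hk : 1 ≤ k) (hD : D.card = 2 * k)
    (hinj : Set.InjOn x D) :
    2 * ((D.powersetCard k).filter (fun S => ∑ i ∈ S, x i = 0)).card ≤ (2 * k).choose k := by
  set Z := (D.powersetCard k).filter (fun S => ∑ i ∈ S, x i = 0) with hZ
  have h1 : Z.card * k ≤ (2 * k).choose (k - 1) := by
    have e1 : Z.card * k = (Z.sigma (fun S => S)).card := by
      rw [Finset.card_sigma, Finset.sum_const_nat]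
      intro S hS
      exact (Finset.mem_powersetCard.1 (Finset.mem_filter.1 hS).1).2
    rw [e1, ← hD, ← Finset.card_powersetCard]
    apply Finset.card_le_card_of_injOn (fun p => p.1.erase p.2)
    · rintro ⟨S, s⟩ hp
      have hp' := Finset.mem_sigma.1 hp
      have hS := Finset.mem_powersetCard.1 (Finset.mem_filter.1 hp'.1).1
      refine Finset.mem_coe.2 (Finset.mem_powersetCard.2
        ⟨(Finset.erase_subset _ _).trans hS.1, ?_⟩)
      rw [Finset.card_erase_of_mem hp'.2, hS.2]
    · rintro ⟨S, s⟩ hp ⟨T, t⟩ hq h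
      have hp' := Finset.mem_sigma.1 hp
      have hq' := Finset.mem_sigma.1 hq
      have hS := Finset.mem_filter.1 hp'.1
      have hT := Finset.mem_filter.1 hq'.1
      have hs : s ∈ S := hp'.2
      have ht : t ∈ T := hq'.2
      have h' : S.erase s = T.erase t := h
      have e2 : x s = x t := by
        have h3 := Finset.add_sum_erase S x hs
        have h4 := Finset.add_sum_erase T x ht
        rw [hS.2] at h3
        rw [hT.2] at h4
        rw [h'] at h3
        linarith
      have e3 : s = t := hinj ((Finset.mem_powersetCard.1 hS.1).1 hs)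
        ((Finset.mem_powersetCard.1 hT.1).1 ht) e2
      subst e3
      have e4 : S = T := by
        rw [← Finset.insert_erase hs, ← Finset.insert_erase ht, h']
      subst e4
      rfl
  rcases Nat.lt_or_ge k 2 with h2 | h2
  · have : k = 1 := by omega
    subst this
    simp at h1 ⊢
    have : Nat.choose 2 1 = 2 := by decide
    omega
  · have h3 : (2 * k).choose (k - 1) ≤ (2 * k).choose k := by
      have := Nat.choose_le_centralBinom (k - 1) k
      rwa [Nat.centralBinom_eq_two_mul_choose] at this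
    nlinarith

/-- zero total: a quarter of the `k`-subsets of a `2k`-set are positive -/
lemma quarter (x : ι → ℝ) (D : Finset ι) (k : ℕ) (hk : 1 ≤ k) (hD : D.card = 2 * k)
    (hinj : Set.InjOn x D) (hs : ∑ i ∈ D, x i = 0) :
    (2 * k).choose k ≤ 4 * pos x D k := by
  have hz := zero_le x D k hk hD hinj
  have h1 := Finset.card_filter_add_card_filter_not (s := D.powersetCard k)
    (fun S => 0 < ∑ i ∈ S, x i)
  rw [Finset.card_powersetCard, hD] at h1
  have h2 : ((D.powersetCard k).filter (fun S => ¬ 0 < ∑ i ∈ S, x i)).card ≤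
      pos x D k + ((D.powersetCard k).filter (fun S => ∑ i ∈ S, x i = 0)).card := by
    have h3 : (D.powersetCard k).filter (fun S => ¬ 0 < ∑ i ∈ S, x i) ⊆
        ((D.powersetCard k).filter (fun S => 0 < ∑ i ∈ S, x i)).image (fun S => D \ S) ∪
        (D.powersetCard k).filter (fun S => ∑ i ∈ S, x i = 0) := by
      intro S hS
      have hS' := Finset.mem_filter.1 hS
      have hSD := (Finset.mem_powersetCard.1 hS'.1).1
      rcases lt_or_eq_of_le (not_lt.1 hS'.2) with h | h
      · apply Finset.mem_union_left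
        refine Finset.mem_image.2 ⟨D \ S, Finset.mem_filter.2 ⟨compl_mem hD hS'.1, ?_⟩,
          Finset.sdiff_sdiff_eq_self hSD⟩
        have h3 := Finset.sum_sdiff (f := x) hSD
        linarith
      · exact Finset.mem_union_right _ (Finset.mem_filter.2 ⟨hS'.1, h⟩)
    exact (Finset.card_le_card h3).trans ((Finset.card_union_le _ _).trans
      (Nat.add_le_add_right Finset.card_image_le _))
  unfold pos at h2 ⊢
  omega

theorem four (k : ℕ) (hk : 1 ≤ k) : W k (4 * k) (1 / 4) := by
  intro ι _ A x hA hinj hs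
  have hD : ∀ D ∈ A.powersetCard (2 * k), (2 * k).choose k ≤ 2 * (pos x D k + pos x (A \ D) k) := by
    intro D hD
    have hD' := Finset.mem_powersetCard.1 hD
    have hDc : (A \ D).card = 2 * k := by
      rw [Finset.card_sdiff_of_subset hD'.1]; omega
    have hsum := Finset.sum_sdiff (f := x) hD'.1
    by_cases h1 : 0 < ∑ i ∈ D, x i
    · have := half x D k hD'.2 h1
      omega
    · by_cases h2 : 0 < ∑ i ∈ A \ D, x i
      · have := half x (A \ D) k hDc h2
        omega
      · push Not at h1 h2
        have e1 : ∑ i ∈ D, x i = 0 := by linarith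
        have e2 : ∑ i ∈ A \ D, x i = 0 := by linarith
        have q1 := quarter x D k hk hD'.2 (hinj.mono (by exact_mod_cast hD'.1)) e1
        have q2 := quarter x (A \ D) k hk hDc
          (hinj.mono (by exact_mod_cast (Finset.sdiff_subset : A \ D ⊆ A))) e2
        omega
  have hsumpos : ∑ D ∈ A.powersetCard (2 * k), pos x D k = pos x A k * (3 * k).choose k := by
    have e1 : ∑ D ∈ A.powersetCard (2 * k), pos x D k
        = ∑ D ∈ A.powersetCard (2 * k), ∑ S ∈ (A.powersetCard k).filter (fun S => 0 < ∑ i ∈ S, x i),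
          (if S ⊆ D then 1 else 0) := by
      apply Finset.sum_congr rfl
      intro D hD
      have hD' := Finset.mem_powersetCard.1 hD
      rw [← Finset.sum_filter, Finset.sum_const, smul_eq_mul, mul_one]
      unfold pos
      apply congrArg Finset.card
      ext S
      simp only [Finset.mem_filter, Finset.mem_powersetCard]
      constructor
      · rintro ⟨⟨h1, h2⟩, h3⟩
        exact ⟨⟨⟨h1.trans hD'.1, h2⟩, h3⟩, h1⟩
      · rintro ⟨⟨⟨_, h2⟩, h3⟩, h4⟩
        exact ⟨⟨h4, h2⟩, h3⟩
    rw [e1, Finset.sum_comm]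
    have e2 : ∀ S ∈ (A.powersetCard k).filter (fun S => 0 < ∑ i ∈ S, x i),
        ∑ D ∈ A.powersetCard (2 * k), (if S ⊆ D then 1 else 0) = (3 * k).choose k := by
      intro S hS
      have hS' := Finset.mem_powersetCard.1 (Finset.mem_filter.1 hS).1
      rw [← Finset.sum_filter, Finset.sum_const, smul_eq_mul, mul_one,
        Finset.card_filter_powersetCard_subset S A (2 * k) hS'.1 (by omega), hA, hS'.2]
      congr 1 <;> omega
    rw [Finset.sum_congr rfl e2, Finset.sum_const, smul_eq_mul]
    rfl
  have hcompl : ∑ D ∈ A.powersetCard (2 * k), pos x (A \ D) k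
      = ∑ D ∈ A.powersetCard (2 * k), pos x D k := by
    apply Finset.sum_bij' (fun D _ => A \ D) (fun D _ => A \ D)
    · intro D hD
      have hD' := Finset.mem_powersetCard.1 hD
      refine Finset.mem_powersetCard.2 ⟨Finset.sdiff_subset, ?_⟩
      rw [Finset.card_sdiff_of_subset hD'.1]; omega
    · intro D hD
      have hD' := Finset.mem_powersetCard.1 hD
      refine Finset.mem_powersetCard.2 ⟨Finset.sdiff_subset, ?_⟩
      rw [Finset.card_sdiff_of_subset hD'.1]; omega
    · intro D hD
      exact Finset.sdiff_sdiff_eq_self (Finset.mem_powersetCard.1 hD).1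
    · intro D hD
      exact Finset.sdiff_sdiff_eq_self (Finset.mem_powersetCard.1 hD).1
    · intro D hD; rfl
  have htot : (4 * k).choose (2 * k) * (2 * k).choose k
      ≤ 4 * (pos x A k * (3 * k).choose k) := by
    calc (4 * k).choose (2 * k) * (2 * k).choose k
        = ∑ _D ∈ A.powersetCard (2 * k), (2 * k).choose k := by
          rw [Finset.sum_const, smul_eq_mul, Finset.card_powersetCard, hA]
      _ ≤ ∑ D ∈ A.powersetCard (2 * k), 2 * (pos x D k + pos x (A \ D) k) :=
          Finset.sum_le_sum hD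
      _ = 4 * (pos x A k * (3 * k).choose k) := by
          rw [← Finset.mul_sum, Finset.sum_add_distrib, hcompl, hsumpos]; ring
  have hch : (4 * k).choose (2 * k) * (2 * k).choose k = (4 * k).choose k * (3 * k).choose k := by
    rw [Nat.choose_mul (by omega : k ≤ 2 * k)]
    congr 2 <;> omega
  rw [hch] at htot
  have hc3 : 0 < (3 * k).choose k := Nat.choose_pos (by omega)
  have hfin : (4 * k).choose k ≤ 4 * pos x A k := by
    have : (4 * k).choose k * (3 * k).choose k ≤ (4 * pos x A k) * (3 * k).choose k := by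
      calc _ ≤ 4 * (pos x A k * (3 * k).choose k) := htot
        _ = _ := by ring
    exact Nat.le_of_mul_le_mul_right this hc3
  have : ((4 * k).choose k : ℝ) ≤ 4 * (pos x A k : ℝ) := by exact_mod_cast hfin
  linarith

theorem mul (hRec : Recursion) (k : ℕ) (hk : 1 ≤ k) (m : ℕ) (hm : 4 ≤ m) :
    W k (m * k) (1 / m) := by
  induction m, hm using Nat.le_induction with
  | base => exact_mod_cast four k hk
  | succ m hm ih =>
    have h1 := hRec k (m * k) _ (by nlinarith) (by positivity) ih
    have hm0 : (0 : ℝ) < m := by exact_mod_cast (by omega : 0 < m)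
    have e : (1 : ℝ) / m / (1 + 1 / m) = 1 / ((m + 1 : ℕ) : ℝ) := by
      push_cast
      field_simp
    rw [e] at h1
    rw [add_mul, one_mul]
    exact h1

/-- k C(mk,k) = mk C(mk-1,k-1) -/
theorem pos_ge (hRec : Recursion) (k n : ℕ) (hk : 1 ≤ k) (hn : 4 * k ≤ n) (hdvd : k ∣ n)
    (A : Finset ι) (x : ι → ℝ) (hA : A.card = n) (hinj : Set.InjOn x A)
    (hs : 0 ≤ ∑ i ∈ A, x i) : (n - 1).choose (k - 1) ≤ pos x A k := by
  obtain ⟨m, rfl⟩ := hdvd
  have hm : 4 ≤ m := by
    by_contra h
    push Not at h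
    nlinarith
  have h1 := mul hRec k hk m hm ι A x (by rw [hA]; ring) hinj hs
  have h2 : ((m * k).choose k : ℝ) = (m : ℝ) * ((m * k - 1).choose (k - 1) : ℝ) := by
    obtain ⟨l, rfl⟩ : ∃ l, k = l + 1 := ⟨k - 1, by omega⟩
    obtain ⟨M, hM⟩ : ∃ M, m * (l + 1) = M + 1 := ⟨m * (l + 1) - 1, by
      have : 0 < m * (l + 1) := by positivity
      omega⟩
    rw [hM]
    simp only [Nat.add_sub_cancel]
    have h3 := Nat.add_one_mul_choose_eq M l
    have h4 : (((M + 1 : ℕ) : ℝ)) * (M.choose l : ℝ)
        = ((M + 1).choose (l + 1) : ℝ) * ((l + 1 : ℕ) : ℝ) := by exact_mod_cast h3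
    have h5 : ((M + 1 : ℕ) : ℝ) = (m : ℝ) * ((l + 1 : ℕ) : ℝ) := by
      rw [← hM]; push_cast; ring
    rw [h5] at h4
    have h6 : (0 : ℝ) < ((l + 1 : ℕ) : ℝ) := by positivity
    have h7 : ((M + 1).choose (l + 1) : ℝ) * ((l + 1 : ℕ) : ℝ)
        = ((m : ℝ) * (M.choose l : ℝ)) * ((l + 1 : ℕ) : ℝ) := by linarith
    exact mul_right_cancel₀ h6.ne' h7
  have hm0 : (0 : ℝ) < m := by exact_mod_cast (by omega : 0 < m)
  rw [h2] at h1
  have h3 : (1 : ℝ) / m * (m * ((m * k - 1).choose (k - 1) : ℝ)) = ((m * k - 1).choose (k - 1) : ℝ) := by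
    field_simp
  rw [h3] at h1
  rw [mul_comm k m]
  exact_mod_cast h1

end Pool.Agent.Work.MaxSums.helper84Div
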