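import Pool.Agent.Work.MP_9999b5_ms_helper84.Transfer3

set_option autoImplicit false

namespace Pool.Agent.Work.MaxSums

open Finset Filter Topology

namespace Transfer

/-- the converse: the bound for distinct reals with sum `0` gives the conjectured bound -/
theorem MMS_of_bound {k n : ℕ} (hk : 1 ≤ k) (hn : 1 ≤ n)
    (h : ∀ A : Finset ℝ, A.card = n → ∑ a ∈ A, a = 0 → mu k A ≤ (n - 1).choose k) :
    MMS k n := by
  intro x hx
  have hn0 : (0 : ℝ) < n := by exact_mod_cast hn
  set c : ℝ := (∑ i, x i) / n with hc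
  have hc0 : 0 ≤ c := by positivity
  set gb : ℝ := (∑ i : Fin n, ((i : ℕ) : ℝ)) / n with hgb
  set y : ℝ → Fin n → ℝ := fun ε i => x i - c + ε * (((i : ℕ) : ℝ) - gb) with hy
  have hsum0 : ∀ ε, ∑ i, y ε i = 0 := by
    intro ε
    simp only [hy]
    rw [Finset.sum_add_distrib, ← Finset.mul_sum, Finset.sum_sub_distrib, Finset.sum_sub_distrib]
    simp only [Finset.sum_const, Finset.card_univ, Fintype.card_fin, nsmul_eq_mul]
    rw [hc, hgb]
    field_simp
    ring
  have hsumS : ∀ ε (S : Finset (Fin n)), ∑ i ∈ S, y ε i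
      = (∑ i ∈ S, x i - S.card * c) + ε * (∑ i ∈ S, (((i : ℕ) : ℝ) - gb)) := by
    intro ε S
    simp only [hy]
    rw [Finset.sum_add_distrib, ← Finset.mul_sum, Finset.sum_sub_distrib]
    simp
  -- small ε
  have h1 : ∀ᶠ ε in 𝓝[>] (0 : ℝ), ∀ S ∈ (Finset.univ : Finset (Fin n)).powersetCard k,
      (∑ i ∈ S, x i - S.card * c) < 0 →
      (∑ i ∈ S, x i - S.card * c) + ε * (∑ i ∈ S, (((i : ℕ) : ℝ) - gb)) < 0 := by
    rw [Finset.eventually_all]
    intro S _
    by_cases h : (∑ i ∈ S, x i - S.card * c) < 0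
    · have hcont : Tendsto (fun ε : ℝ => (∑ i ∈ S, x i - S.card * c)
          + ε * (∑ i ∈ S, (((i : ℕ) : ℝ) - gb))) (𝓝[>] 0)
          (𝓝 ((∑ i ∈ S, x i - S.card * c) + 0 * (∑ i ∈ S, (((i : ℕ) : ℝ) - gb)))) :=
        ((continuous_const.add (continuous_id.mul continuous_const)).tendsto 0).mono_left
          nhdsWithin_le_nhds
      rw [zero_mul, add_zero] at hcont
      exact (hcont.eventually_lt_const h).mono (fun ε hε _ => hε)
    · exact Filter.Eventually.of_forall (fun ε h' => absurd h' h)
  have h2 : ∀ᶠ ε in 𝓝[>] (0 : ℝ), ∀ p ∈ (Finset.univ : Finset (Fin n × Fin n)),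
      p.1 ≠ p.2 → y ε p.1 ≠ y ε p.2 := by
    rw [Finset.eventually_all]
    rintro ⟨i, j⟩ _
    by_cases hij : i = j
    · exact Filter.Eventually.of_forall (fun ε h' => absurd hij h')
    by_cases hxij : x i = x j
    · filter_upwards [self_mem_nhdsWithin] with ε hε _ heq
      have hε' : 0 < ε := hε
      simp only [hy] at heq
      rw [hxij] at heq
      have h3 : ε * (((i : ℕ) : ℝ) - ((j : ℕ) : ℝ)) = 0 := by linarith
      rcases mul_eq_zero.1 h3 with h4 | h4
      · linarith
      · apply hij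
        have : ((i : ℕ) : ℝ) = ((j : ℕ) : ℝ) := by linarith
        exact Fin.ext (by exact_mod_cast this)
    · have hcont : Tendsto (fun ε : ℝ => y ε i - y ε j) (𝓝[>] 0) (𝓝 (y 0 i - y 0 j)) := by
        apply Filter.Tendsto.mono_left _ nhdsWithin_le_nhds
        have : Continuous (fun ε : ℝ => y ε i - y ε j) := by
          simp only [hy]; fun_prop
        exact this.tendsto 0
      have hne : y 0 i - y 0 j ≠ 0 := by
        simp only [hy]
        intro h; apply hxij; linarith
      filter_upwards [hcont.eventually_ne hne] with ε hε _ heq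
      exact hε (by rw [heq]; ring)
  obtain ⟨ε, h1, h2⟩ := (h1.and h2).exists
  have hyinj : Function.Injective (fun i => -y ε i) := by
    intro i j hij
    by_contra hne
    exact h2 (i, j) (Finset.mem_univ _) hne (neg_injective hij)
  set f : Fin n ↪ ℝ := ⟨fun i => -y ε i, hyinj⟩ with hf
  set A : Finset ℝ := Finset.univ.map f with hA
  have hAc : A.card = n := by rw [hA, Finset.card_map, Finset.card_univ, Fintype.card_fin]
  have hAs : ∑ a ∈ A, a = 0 := by
    rw [hA, Finset.sum_map]
    simp only [hf, Function.Embedding.coeFn_mk, Finset.sum_neg_distrib]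
    rw [hsum0, neg_zero]
  have hmu := h A hAc hAs
  have h3 : ((Finset.univ.powersetCard k).filter
      (fun S : Finset (Fin n) => ¬ 0 ≤ ∑ i ∈ S, x i)).card ≤ mu k A := by
    unfold mu
    apply Finset.card_le_card_of_injOn (fun S => S.map f)
    · intro S hS
      have g1 := Finset.mem_filter.1 hS
      have g2 := Finset.mem_powersetCard.1 g1.1
      refine Finset.mem_coe.2 (Finset.mem_filter.2 ⟨Finset.mem_powersetCard.2 ⟨?_, ?_⟩, ?_⟩)
      · exact Finset.map_subset_map.2 g2.1
      · rw [Finset.card_map, g2.2]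
      · rw [Finset.sum_map]
        simp only [hf, Function.Embedding.coeFn_mk, Finset.sum_neg_distrib]
        have g3 : (∑ i ∈ S, x i - S.card * c) < 0 := by
          have g4 := not_le.1 g1.2
          have g5 : 0 ≤ (S.card : ℝ) * c := by positivity
          linarith
        have g6 := h1 S g1.1 g3
        rw [← hsumS] at g6
        linarith
    · intro S _ T _ hST
      exact Finset.map_injective f hST
  have h4 := Finset.card_filter_add_card_filter_not (s := (Finset.univ : Finset (Fin n)).powersetCard k)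
    (fun S => 0 ≤ ∑ i ∈ S, x i)
  rw [Finset.card_powersetCard, Finset.card_univ, Fintype.card_fin] at h4
  have h5 : n.choose k = (n - 1).choose (k - 1) + (n - 1).choose k := by
    obtain ⟨l, rfl⟩ : ∃ l, k = l + 1 := ⟨k - 1, by omega⟩
    obtain ⟨m, rfl⟩ : ∃ m, n = m + 1 := ⟨n - 1, by omega⟩
    simp [Nat.choose_succ_succ]
  omega

/-- Q1 at `(k, n+k)` from the MMS bound at `(k, n)`. -/
theorem greatest_of_MMS {k n : ℕ} (hk : 1 ≤ k) (hn : 4 * k ≤ n) (hM : MMS k n) :
    IsGreatest (values k (n + k)) ((n + k - 1).choose k) := by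
  refine isGreatest_of k (n + k) hk (by omega) (fun A hA hs => ?_)
  rcases Nat.lt_or_ge k 2 with h | h
  · have : k = 1 := by omega
    subst this
    exact one (n + 1) (by omega) A hA hs
  · exact transfer h hn hM A (fun a => -a) hA (fun a _ b _ h => neg_injective h)
      (by rw [Finset.sum_neg_distrib, hs, neg_zero])

theorem MMS_of_greatest {k n : ℕ} (hk : 1 ≤ k) (hn : 1 ≤ n)
    (h : IsGreatest (values k n) ((n - 1).choose k)) : MMS k n :=
  MMS_of_bound hk hn (fun A h1 h2 => h.2 ⟨A, h1, h2, rfl⟩)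

end Transfer

end Pool.Agent.Work.MaxSums
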