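import Mathlib

set_option autoImplicit false

namespace Pool.Agent.Work.MaxSums

open Finset

/-- The number of `k`-element subsets of `A` with non-negative sum. -/
noncomputable def mu (k : ℕ) (A : Finset ℝ) : ℕ :=
  ((A.powersetCard k).filter (fun B => 0 ≤ ∑ b ∈ B, b)).card

/-- The values `mu k A`, for the sets `A` of `n` distinct real numbers with sum `0`. -/
def values (k n : ℕ) : Set ℕ :=
  {m | ∃ A : Finset ℝ, A.card = n ∧ ∑ a ∈ A, a = 0 ∧ mu k A = m}

/-- The bound of the Manickam-Miklos-Singhi conjecture for `k` and `n`: any `n` real numbers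
with non-negative sum have at least `C(n-1,k-1)` subfamilies of size `k` with non-negative
sum. -/
def MMS (k n : ℕ) : Prop := ∀ x : Fin n → ℝ, 0 ≤ ∑ i, x i →
  (n - 1).choose (k - 1) ≤
    ((Finset.univ.powersetCard k).filter (fun S : Finset (Fin n) => 0 ≤ ∑ i ∈ S, x i)).card

/-- a set with exactly one negative element -/
lemma lower (k n : ℕ) (hn : 2 ≤ n) :
    ∃ A : Finset ℝ, A.card = n ∧ ∑ a ∈ A, a = 0 ∧ (n - 1).choose k ≤ mu k A := by
  obtain ⟨m, rfl⟩ : ∃ m, n = m + 1 := ⟨n - 1, by omega⟩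
  set P : Finset ℝ := (Finset.range m).image (fun i : ℕ => (i : ℝ) + 1) with hP
  have hinj : Set.InjOn (fun i : ℕ => (i : ℝ) + 1) (Finset.range m : Set ℕ) := by
    intro i _ j _ h
    have h' : (i : ℝ) + 1 = (j : ℝ) + 1 := h
    have : (i : ℝ) = (j : ℝ) := by linarith
    exact_mod_cast this
  have hPc : P.card = m := by
    rw [hP, Finset.card_image_of_injOn hinj, Finset.card_range]
  have hPpos : ∀ a ∈ P, 0 < a := by
    intro a ha
    obtain ⟨i, _, rfl⟩ := Finset.mem_image.1 ha
    positivity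
  have hPne : P.Nonempty := by rw [← Finset.card_pos, hPc]; omega
  have hsum : 0 < ∑ a ∈ P, a := Finset.sum_pos hPpos hPne
  set c : ℝ := -∑ a ∈ P, a with hc
  have hcP : c ∉ P := fun h => by have := hPpos c h; linarith
  refine ⟨insert c P, ?_, ?_, ?_⟩
  · rw [Finset.card_insert_of_notMem hcP, hPc]
  · rw [Finset.sum_insert hcP, hc]; ring
  · rw [Nat.add_sub_cancel, ← hPc, ← Finset.card_powersetCard]
    unfold mu
    apply Finset.card_le_card
    intro B hB
    have hB' := Finset.mem_powersetCard.1 hB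
    refine Finset.mem_filter.2 ⟨Finset.mem_powersetCard.2
      ⟨hB'.1.trans (Finset.subset_insert _ _), hB'.2⟩, ?_⟩
    exact Finset.sum_nonneg (fun b hb => (hPpos b (hB'.1 hb)).le)

/-- upper bound from the number of negative sets -/
lemma upper (k n : ℕ) (hk : 0 < k) (hn : 0 < n) (A : Finset ℝ) (hA : A.card = n)
    (h : (n - 1).choose (k - 1) ≤
      ((A.powersetCard k).filter (fun B => 0 < ∑ b ∈ B, -b)).card) :
    mu k A ≤ (n - 1).choose k := by
  have h1 := Finset.card_filter_add_card_filter_not (s := A.powersetCard k)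
    (fun B => 0 ≤ ∑ b ∈ B, b)
  rw [Finset.card_powersetCard, hA] at h1
  have h2 : (A.powersetCard k).filter (fun B => ¬ 0 ≤ ∑ b ∈ B, b)
      = (A.powersetCard k).filter (fun B => 0 < ∑ b ∈ B, -b) := by
    apply Finset.filter_congr
    intro B _
    rw [Finset.sum_neg_distrib]
    constructor
    · intro h; push Not at h; linarith
    · intro h; push Not; linarith
  rw [h2] at h1
  have h3 : n.choose k = (n - 1).choose (k - 1) + (n - 1).choose k := by
    obtain ⟨l, rfl⟩ : ∃ l, k = l + 1 := ⟨k - 1, by omega⟩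
    obtain ⟨m, rfl⟩ : ∃ m, n = m + 1 := ⟨n - 1, by omega⟩
    simp [Nat.choose_succ_succ]
  unfold mu
  omega

lemma isGreatest_of (k n : ℕ) (hk : 0 < k) (hn : 2 ≤ n)
    (h : ∀ A : Finset ℝ, A.card = n → ∑ a ∈ A, a = 0 → (n - 1).choose (k - 1) ≤
      ((A.powersetCard k).filter (fun B => 0 < ∑ b ∈ B, -b)).card) :
    IsGreatest (values k n) ((n - 1).choose k) := by
  constructor
  · obtain ⟨A, h1, h2, h3⟩ := lower k n hn
    exact ⟨A, h1, h2, le_antisymm (upper k n hk (by omega) A h1 (h A h1 h2)) h3⟩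
  · rintro m ⟨A, h1, h2, rfl⟩
    exact upper k n hk (by omega) A h1 (h A h1 h2)

/-- the case `k = 1` -/
lemma one (n : ℕ) (hn : 2 ≤ n) (A : Finset ℝ) (hA : A.card = n) (hs : ∑ a ∈ A, a = 0) :
    (n - 1).choose (1 - 1) ≤ ((A.powersetCard 1).filter (fun B => 0 < ∑ b ∈ B, -b)).card := by
  simp only [Nat.sub_self, Nat.choose_zero_right]
  rw [Nat.one_le_iff_ne_zero, ← Nat.pos_iff_ne_zero, Finset.card_pos]
  by_contra hcon
  rw [Finset.not_nonempty_iff_eq_empty] at hcon
  have h1 : ∀ a ∈ A, 0 ≤ a := by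
    intro a ha
    by_contra h
    push Not at h
    have : ({a} : Finset ℝ) ∈ (A.powersetCard 1).filter (fun B => 0 < ∑ b ∈ B, -b) := by
      refine Finset.mem_filter.2 ⟨Finset.mem_powersetCard.2 ⟨by simpa using ha, by simp⟩, ?_⟩
      simpa using h
    rw [hcon] at this
    simp at this
  have h2 := (Finset.sum_eq_zero_iff_of_nonneg h1).1 hs
  have h3 : A ⊆ {0} := by
    intro a ha; simpa using h2 a ha
  have := Finset.card_le_card h3
  simp at this
  omega

end Pool.Agent.Work.MaxSums
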