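import Pool.Agent.Work.MP_9999b5_ms.Defs

set_option autoImplicit false

namespace Pool.Agent.Work.MaxSums.helper84Anti

open Finset

/-- the test polynomial, scaled -/
lemma poly_le (v z t : ℝ) (hv : 0 < v) (ht : 0 ≤ t) :
    z ^ 2 + 4 * v * z - z ^ 4 / (64 * v ^ 2) - 8 * v * t ≤ 41 * v ^ 2 := by
  have h1 : z ^ 2 + 4 * v * z - z ^ 4 / (64 * v ^ 2) ≤ 41 * v ^ 2 := by
    obtain ⟨r, rfl⟩ : ∃ r, z = v * r := ⟨z / v, by field_simp⟩
    have h2 : (v * r) ^ 4 / (64 * v ^ 2) = v ^ 2 * (r ^ 4 / 64) := by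
      field_simp
    rw [h2]
    have h3 : r ^ 2 + 4 * r - r ^ 4 / 64 ≤ 41 := by
      nlinarith [sq_nonneg (r ^ 2 - 42), sq_nonneg (r - 13 / 2), sq_nonneg (r ^ 2 - 41 * 1)]
    nlinarith [mul_le_mul_of_nonneg_left h3 (sq_nonneg v)]
  have h4 : 0 ≤ 8 * v * t := by positivity
  linarith

lemma poly_nonpos (v z t : ℝ) (hv : 0 < v) (ht : 0 ≤ t) (hz : z ≤ t) :
    z ^ 2 + 4 * v * z - z ^ 4 / (64 * v ^ 2) - 8 * v * t ≤ 0 := by
  -- for u ≥ 0: u - u^3/(64 v^2) ≤ 4 v
  have key : ∀ u : ℝ, 0 ≤ u → u ^ 2 - u ^ 4 / (64 * v ^ 2) ≤ 4 * v * u := by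
    intro u hu
    obtain ⟨r, rfl⟩ : ∃ r, u = v * r := ⟨u / v, by field_simp⟩
    have hr : 0 ≤ r := by
      by_contra hcon
      push Not at hcon
      nlinarith
    have h2 : (v * r) ^ 4 / (64 * v ^ 2) = v ^ 2 * (r ^ 4 / 64) := by
      field_simp
    rw [h2]
    have h3 : r ^ 2 - r ^ 4 / 64 ≤ 4 * r := by
      have : r - r ^ 3 / 64 ≤ 4 := by
        nlinarith [sq_nonneg (r - 4), sq_nonneg (r - 5), mul_nonneg hr (sq_nonneg (r - 4)),
          mul_nonneg hr (sq_nonneg (r - 5))]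
      nlinarith [mul_le_mul_of_nonneg_left this hr]
    nlinarith [mul_le_mul_of_nonneg_left h3 (sq_nonneg v)]
  rcases le_total 0 z with h0 | h0
  · have h1 := key z h0
    nlinarith [mul_le_mul_of_nonneg_left hz hv.le]
  · have h1 := key (-z) (by linarith)
    have h2 : (-z) ^ 4 = z ^ 4 := by ring
    have h3 : (-z) ^ 2 = z ^ 2 := by ring
    rw [h2, h3] at h1
    have h4 : 0 ≤ 8 * v * t := by positivity
    linarith

theorem holds (hL : SumLin) (hQ : SumSq) (hF : Fourth) : Anti := by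
  intro ι _ B k z H V t hk hkB hsum hH hV hHV hV9 ht0 ht1
  have hm : 20 ≤ B.card := by omega
  have hmR : (20 : ℝ) ≤ B.card := by exact_mod_cast hm
  have hkR : (1 : ℝ) ≤ k := by exact_mod_cast hk
  have hkmR : 20 * (k : ℝ) ≤ B.card := by exact_mod_cast hkB
  set m : ℝ := (B.card : ℝ) with hmdef
  set C : ℝ := (B.card.choose k : ℝ) with hC
  have hC0 : 0 ≤ C := by rw [hC]; positivity
  set v : ℝ := Real.sqrt V with hv
  have hv2 : v ^ 2 = V := Real.sq_sqrt (by linarith)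
  have hv3 : 3 ≤ v := by
    rw [hv]; apply Real.le_sqrt_of_sq_le; linarith
  have hv0 : 0 < v := by linarith
  -- first moment
  have e1 : ∑ S ∈ B.powersetCard k, ∑ i ∈ S, z i = 0 := by
    have := hL ι B k z
    rw [hsum, mul_zero] at this
    rcases mul_eq_zero.1 this with h | h
    · exfalso; rw [← hmdef] at h; linarith
    · exact h
  -- second moment
  have e2 : 19 / 20 * V * C ≤ ∑ S ∈ B.powersetCard k, (∑ i ∈ S, z i) ^ 2 := by
    have h := hQ ι B k z
    rw [hsum] at h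
    rw [← hmdef, ← hC] at h
    have h' : m * (m - 1) * ∑ S ∈ B.powersetCard k, (∑ i ∈ S, z i) ^ 2
        = C * ((m - k) * (V * m)) := by
      rw [h, hV]; ring
    have hm0 : 0 < m := by linarith
    have hm1 : 0 < m - 1 := by linarith
    have h3 : (m - 1) * ∑ S ∈ B.powersetCard k, (∑ i ∈ S, z i) ^ 2 = C * ((m - k) * V) := by
      have : m * ((m - 1) * ∑ S ∈ B.powersetCard k, (∑ i ∈ S, z i) ^ 2)
          = m * (C * ((m - k) * V)) := by linarith
      exact mul_left_cancel₀ hm0.ne' this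
    have h4 : (m - 1) * (19 / 20 * V * C) ≤ C * ((m - k) * V) := by
      have : (m - 1) * (19 / 20) ≤ m - k := by linarith
      have hVC : 0 ≤ V * C := by positivity
      nlinarith [mul_le_mul_of_nonneg_left this hVC]
    have h5 : (m - 1) * (19 / 20 * V * C)
        ≤ (m - 1) * ∑ S ∈ B.powersetCard k, (∑ i ∈ S, z i) ^ 2 := by linarith
    exact le_of_mul_le_mul_left h5 hm1
  -- fourth moment
  have e4 : ∑ S ∈ B.powersetCard k, (∑ i ∈ S, z i) ^ 4 ≤ C * (16 * V ^ 2) := by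
    have h := hF ι B k z H V hk (by omega) (by omega) hsum hH hV
    rw [← hC] at h
    have h2 : 15 * V ^ 2 + 9 * H ^ 2 * V ≤ 16 * V ^ 2 := by nlinarith
    exact h.trans (mul_le_mul_of_nonneg_left h2 hC0)
  -- the polynomial
  set p : Finset ι → ℝ := fun S => (∑ i ∈ S, z i) ^ 2 + 4 * v * (∑ i ∈ S, z i)
      - (∑ i ∈ S, z i) ^ 4 / (64 * v ^ 2) - 8 * v * t with hp
  set F := (B.powersetCard k).filter (fun S => t < ∑ i ∈ S, z i) with hFdef
  have up : ∑ S ∈ B.powersetCard k, p S ≤ 41 * v ^ 2 * (F.card : ℝ) := by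
    rw [← Finset.sum_filter_add_sum_filter_not (B.powersetCard k) (fun S => t < ∑ i ∈ S, z i)]
    have h1 : ∑ S ∈ F, p S ≤ F.card • (41 * v ^ 2) :=
      Finset.sum_le_card_nsmul _ _ _ (fun S _ => poly_le v _ t hv0 ht0)
    have h2 : ∑ S ∈ (B.powersetCard k).filter (fun S => ¬ t < ∑ i ∈ S, z i), p S ≤ 0 := by
      apply Finset.sum_nonpos
      intro S hS
      exact poly_nonpos v _ t hv0 ht0 (not_lt.1 (Finset.mem_filter.1 hS).2)
    rw [nsmul_eq_mul] at h1
    linarith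
  have lo : C * (19 / 20 * V - V / 4 - 8 * v * t) ≤ ∑ S ∈ B.powersetCard k, p S := by
    have h1 : ∑ S ∈ B.powersetCard k, p S
        = ∑ S ∈ B.powersetCard k, (∑ i ∈ S, z i) ^ 2
          + 4 * v * ∑ S ∈ B.powersetCard k, (∑ i ∈ S, z i)
          - (∑ S ∈ B.powersetCard k, (∑ i ∈ S, z i) ^ 4) / (64 * v ^ 2)
          - C * (8 * v * t) := by
      rw [hp]
      simp only [Finset.sum_sub_distrib, Finset.sum_add_distrib, Finset.sum_const,
        Finset.card_powersetCard, nsmul_eq_mul, Finset.mul_sum, Finset.sum_div]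
      rfl
    have h2 : (∑ S ∈ B.powersetCard k, (∑ i ∈ S, z i) ^ 4) / (64 * v ^ 2) ≤ C * (V / 4) := by
      rw [div_le_iff₀ (by positivity), hv2]
      nlinarith
    rw [h1, e1]
    nlinarith
  have h8 : 8 * v * t ≤ 2 / 15 * V := by
    have : 8 * v * t ≤ 8 * v * (1 / 20) := by
      apply mul_le_mul_of_nonneg_left ht1; positivity
    nlinarith
  have h9 : C * (V / 2) ≤ C * (19 / 20 * V - V / 4 - 8 * v * t) := by
    apply mul_le_mul_of_nonneg_left _ hC0
    linarith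
  have h10 : C * (V / 2) ≤ 41 * V * (F.card : ℝ) := by
    rw [← hv2] at *
    linarith
  have hVpos : 0 < V := by linarith
  have h11 : V * (C / 2) ≤ V * (41 * (F.card : ℝ)) := by linarith
  have h12 := le_of_mul_le_mul_left h11 hVpos
  show C / 400 ≤ (F.card : ℝ)
  linarith

end Pool.Agent.Work.MaxSums.helper84Anti
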