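import Pool.Agent.Work.MP_9999b5_ms.Defs

set_option autoImplicit false

namespace Pool.Agent.Work.MaxSums.helper84Gain

open Finset

variable {ι : Type} [DecidableEq ι]

lemma pairs_eq (x : ι → ℝ) (R : Finset ι) (k : ℕ) :
    (pairs x R k : ℝ) = ∑ S ∈ R.powersetCard k, ∑ U ∈ (R \ S).powersetCard (k - 1),
      (if 0 < ∑ i ∈ S, x i ∧ -1 < ∑ i ∈ U, x i then (1 : ℝ) else 0) := by
  unfold pairs above
  rw [Finset.sum_filter]
  push_cast
  apply Finset.sum_congr rfl
  intro S _
  by_cases h : 0 < ∑ i ∈ S, x i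
  · simp [h]
  · simp [h]

theorem holds (hSw : Swap) (hSD : StarDegS) (hM : MostClean) (hF : FewWild) (hR : Repart) :
    Gain := by
  intro ι _ R O x k hT hbig hout
  set B := R \ O with hB
  have hk := hT.hk
  have hkB : k ≤ B.card := by have := hT.card_ge; omega
  set Cn : ℕ := (R.card - k).choose (k - 1) with hCn
  -- positive clean sets
  set P := (B.powersetCard k).filter (fun S => 0 < ∑ i ∈ S, x i) with hP
  have hPcard : pos x B k = P.card := rfl
  set P1 := P.filter (fun S => ∑ i ∈ S, x i ≤ 100) with hP1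
  set P2 := P.filter (fun S => 100 < ∑ i ∈ S, x i ∧ ∑ i ∈ S, x i ^ 2 ≤ 152) with hP2
  set P3 := (B.powersetCard k).filter
      (fun S => 100 < ∑ i ∈ S, x i ∧ 152 < ∑ i ∈ S, x i ^ 2) with hP3
  have hcov : P ⊆ P1 ∪ (P2 ∪ P3) := by
    intro S hS
    have hS' := Finset.mem_filter.1 hS
    by_cases h1 : ∑ i ∈ S, x i ≤ 100
    · exact Finset.mem_union_left _ (Finset.mem_filter.2 ⟨hS, h1⟩)
    · apply Finset.mem_union_right
      push Not at h1
      by_cases h2 : ∑ i ∈ S, x i ^ 2 ≤ 152
      · exact Finset.mem_union_left _ (Finset.mem_filter.2 ⟨hS, h1, h2⟩)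
      · push Not at h2
        exact Finset.mem_union_right _ (Finset.mem_filter.2 ⟨hS'.1, h1, h2⟩)
  have hcard : P.card ≤ P1.card + (P2.card + P3.card) :=
    (Finset.card_le_card hcov).trans ((Finset.card_union_le _ _).trans
      (Nat.add_le_add_left (Finset.card_union_le _ _) _))
  -- P3 is at most a quarter
  have h3 : 4 * P3.card ≤ P.card := by
    have h := hF ι B x k 100 152 (by norm_num) hkB hT.abs_le
    have h' : (P3.card : ℝ) * 152 * (B.card - k) ≤ (P.card : ℝ) * (37 * B.card) := by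
      refine h.trans ?_
      rw [hPcard]
      exact mul_le_mul_of_nonneg_left hT.sq_le (Nat.cast_nonneg _)
    have hb : (100000 : ℝ) * k ≤ B.card := by exact_mod_cast hbig
    have hk0 : (2 : ℝ) ≤ k := by exact_mod_cast hk
    have hBpos : (0 : ℝ) < B.card := by linarith
    have h4 : (P3.card : ℝ) * 152 * (99999 / 100000 * B.card) ≤ (P.card : ℝ) * (37 * B.card) := by
      refine le_trans ?_ h'
      apply mul_le_mul_of_nonneg_left _ (by positivity)
      linarith
    have h5 : (P3.card : ℝ) * (152 * (99999 / 100000)) ≤ (P.card : ℝ) * 37 := by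
      have : ((P3.card : ℝ) * (152 * (99999 / 100000))) * B.card ≤ ((P.card : ℝ) * 37) * B.card := by
        linarith
      exact le_of_mul_le_mul_right this hBpos
    have h6 : (4 : ℝ) * P3.card ≤ P.card := by
      have : (0 : ℝ) ≤ P3.card := Nat.cast_nonneg _
      linarith
    exact_mod_cast h6
  -- P1
  have h1 : P1.card * Cn ≤ 300 * pairs x R k := by
    have step : ∀ S ∈ P1, Cn ≤ 300 * above x (R \ S) (k - 1) := by
      intro S hS
      have hS1 := Finset.mem_filter.1 hS
      have hS2 := Finset.mem_filter.1 hS1.1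
      have hS3 := Finset.mem_powersetCard.1 hS2.1
      exact hSD ι R O S x k hT hbig hS3.1 hS3.2 hS1.2
    calc P1.card * Cn = ∑ _S ∈ P1, Cn := by rw [Finset.sum_const, smul_eq_mul]
      _ ≤ ∑ S ∈ P1, 300 * above x (R \ S) (k - 1) := Finset.sum_le_sum step
      _ = 300 * ∑ S ∈ P1, above x (R \ S) (k - 1) := by rw [Finset.mul_sum]
      _ ≤ 300 * pairs x R k := by
        apply Nat.mul_le_mul_left
        unfold pairs
        apply Finset.sum_le_sum_of_subset
        intro S hS
        have hS1 := Finset.mem_filter.1 hS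
        have hS2 := Finset.mem_filter.1 hS1.1
        have hS3 := Finset.mem_powersetCard.1 hS2.1
        exact Finset.mem_filter.2 ⟨Finset.mem_powersetCard.2
          ⟨hS3.1.trans Finset.sdiff_subset, hS3.2⟩, hS2.2⟩
  -- P2
  set i := k / 2 with hi
  set D : ℕ := k.choose i * (k - 1).choose i with hD
  have hDpos : 0 < D := by
    apply Nat.mul_pos
    · exact Nat.choose_pos (by omega)
    · exact Nat.choose_pos (by omega)
  have h2 : P2.card * Cn * D ≤ 20 * (D * pairs x R k) := by
    have step : ∀ S ∈ P2, Cn * D ≤ 20 * ∑ U ∈ (R \ S).powersetCard (k - 1),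
        ∑ W ∈ S.powersetCard i, ((U.powersetCard i).filter (fun V =>
        0 < ∑ i ∈ (S \ W) ∪ V, x i ∧ -1 < ∑ i ∈ (U \ V) ∪ W, x i)).card := by
      intro S hS
      have hS1 := Finset.mem_filter.1 hS
      have hS2 := Finset.mem_filter.1 hS1.1
      have hS3 := Finset.mem_powersetCard.1 hS2.1
      have := hR ι R O S x k hT hbig hS3.1 hS3.2 hS1.2.1 hS1.2.2
      rw [hD, ← mul_assoc]
      exact this
    have tot : ((∑ S ∈ R.powersetCard k, ∑ U ∈ (R \ S).powersetCard (k - 1),
        ∑ W ∈ S.powersetCard i, ((U.powersetCard i).filter (fun V =>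
        0 < ∑ i ∈ (S \ W) ∪ V, x i ∧ -1 < ∑ i ∈ (U \ V) ∪ W, x i)).card : ℕ) : ℝ)
        = (D : ℝ) * pairs x R k := by
      rw [pairs_eq]
      have hsw := hSw ι R k (k - 1) i (fun S U =>
        if 0 < ∑ i ∈ S, x i ∧ -1 < ∑ i ∈ U, x i then (1 : ℝ) else 0)
      rw [hD]
      push_cast
      rw [← hsw]
      apply Finset.sum_congr rfl; intro S _
      apply Finset.sum_congr rfl; intro U _
      apply Finset.sum_congr rfl; intro W _
      rw [Finset.card_filter]
      push_cast
      rfl
    have tot' : (∑ S ∈ R.powersetCard k, ∑ U ∈ (R \ S).powersetCard (k - 1),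
        ∑ W ∈ S.powersetCard i, ((U.powersetCard i).filter (fun V =>
        0 < ∑ i ∈ (S \ W) ∪ V, x i ∧ -1 < ∑ i ∈ (U \ V) ∪ W, x i)).card)
        = D * pairs x R k := by exact_mod_cast tot
    calc P2.card * Cn * D = ∑ _S ∈ P2, Cn * D := by
          rw [Finset.sum_const, smul_eq_mul, mul_assoc]
      _ ≤ ∑ S ∈ P2, 20 * ∑ U ∈ (R \ S).powersetCard (k - 1),
        ∑ W ∈ S.powersetCard i, ((U.powersetCard i).filter (fun V =>
        0 < ∑ i ∈ (S \ W) ∪ V, x i ∧ -1 < ∑ i ∈ (U \ V) ∪ W, x i)).card :=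
          Finset.sum_le_sum step
      _ = 20 * ∑ S ∈ P2, ∑ U ∈ (R \ S).powersetCard (k - 1),
        ∑ W ∈ S.powersetCard i, ((U.powersetCard i).filter (fun V =>
        0 < ∑ i ∈ (S \ W) ∪ V, x i ∧ -1 < ∑ i ∈ (U \ V) ∪ W, x i)).card := by
          rw [Finset.mul_sum]
      _ ≤ 20 * (D * pairs x R k) := by
        rw [← tot']
        apply Nat.mul_le_mul_left
        apply Finset.sum_le_sum_of_subset
        intro S hS
        have hS1 := Finset.mem_filter.1 hS
        have hS2 := Finset.mem_filter.1 hS1.1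
        have hS3 := Finset.mem_powersetCard.1 hS2.1
        exact Finset.mem_powersetCard.2 ⟨hS3.1.trans Finset.sdiff_subset, hS3.2⟩
  have h2' : P2.card * Cn ≤ 20 * pairs x R k := by
    have : (P2.card * Cn) * D ≤ (20 * pairs x R k) * D := by
      calc P2.card * Cn * D ≤ 20 * (D * pairs x R k) := h2
        _ = (20 * pairs x R k) * D := by ring
    exact Nat.le_of_mul_le_mul_right this hDpos
  have hM' := hM ι R O x k hT.sub hT.ord (by have := hT.card_ge; omega) hout
  have e1 : 3 * P.card ≤ 4 * (P1.card + P2.card) := by omega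
  have e2 : 3 * (P.card * Cn) ≤ 4 * (P1.card * Cn + P2.card * Cn) := by
    calc 3 * (P.card * Cn) = (3 * P.card) * Cn := by ring
      _ ≤ (4 * (P1.card + P2.card)) * Cn := Nat.mul_le_mul_right _ e1
      _ = 4 * (P1.card * Cn + P2.card * Cn) := by ring
  have e3 : 7 * (pos x R k * Cn) ≤ 10 * (P.card * Cn) := by
    calc 7 * (pos x R k * Cn) = (7 * pos x R k) * Cn := by ring
      _ ≤ (10 * P.card) * Cn := Nat.mul_le_mul_right _ hM'
      _ = 10 * (P.card * Cn) := by ring
  omega

end Pool.Agent.Work.MaxSums.helper84Gain
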