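import Pool.Agent.Work.MP_9999b5_ms.Defs

set_option autoImplicit false

namespace Pool.Agent.Work.MaxSums.helper84Main

open Finset

variable {ι : Type} [DecidableEq ι]

lemma pos_scale (x : ι → ℝ) (A : Finset ι) (k : ℕ) (β : ℝ) (hβ : 0 < β) :
    pos (fun i => x i / β) A k = pos x A k := by
  unfold pos
  apply congrArg Finset.card
  apply Finset.filter_congr
  intro S _
  rw [← Finset.sum_div]
  constructor
  · intro h
    by_contra hcon
    push Not at hcon
    have := div_nonpos_of_nonpos_of_nonneg hcon hβ.le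
    linarith
  · intro h; positivity

/-- choice of the maximum and of the outliers -/
theorem setup (hOut : Outliers) (hA : ClaimA) (hC : Clean) (A : Finset ι) (x : ι → ℝ) (k : ℕ)
    (hk : 2 ≤ k) (hN : 24 * k ≤ A.card) (hinj : Set.InjOn x A) (hsum : 0 ≤ ∑ i ∈ A, x i) :
    ∃ a ∈ A, ∃ y : ι → ℝ, y a = 1 ∧ Set.InjOn y A ∧ 0 ≤ ∑ i ∈ A, y i ∧
      (∀ l, pos y A l = pos x A l) ∧
      ∃ O : Finset ι, 4 * k * O.card ≤ A.card + 4 * k - 1 ∧ O ⊆ A.erase a ∧
        (Tame (A.erase a) O y k ∨
          7 * ((A.erase a).card.choose k) ≤ 9010 * pos y (A.erase a) k) := by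
  have hne : A.Nonempty := by
    rw [← Finset.card_pos]; omega
  obtain ⟨a, ha, hmax⟩ := Finset.exists_max_image A x hne
  -- the maximum is positive
  have hpos : 0 < x a := by
    by_contra hcon
    push Not at hcon
    have h2 : (A.erase a).Nonempty := by
      rw [← Finset.card_pos, Finset.card_erase_of_mem ha]; omega
    obtain ⟨b, hb⟩ := h2
    have hbA := Finset.mem_of_mem_erase hb
    have hba := Finset.ne_of_mem_erase hb
    have hlt : x b < x a := lt_of_le_of_ne (hmax b hbA) (fun h => hba (hinj hbA ha h))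
    have : ∑ i ∈ A, x i < ∑ i ∈ A, (0 : ℝ) :=
      Finset.sum_lt_sum (fun i hi => (hmax i hi).trans hcon) ⟨b, hbA, by linarith⟩
    simp at this
    linarith
  set β := x a with hβ
  refine ⟨a, ha, fun i => x i / β, div_self hpos.ne', ?_, ?_, ?_, ?_⟩
  · intro i hi j hj hij
    apply hinj hi hj
    have : x i / β = x j / β := hij
    field_simp at this
    exact this
  · rw [← Finset.sum_div]; positivity
  · intro l; exact pos_scale x A l β hpos
  set y : ι → ℝ := fun i => x i / β with hy
  have hya : y a = 1 := div_self hpos.ne'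
  set R := A.erase a with hR
  have hRcard : R.card + 1 = A.card := Finset.card_erase_add_one ha
  have hle1 : ∀ i ∈ R, y i ≤ 1 := by
    intro i hi
    rw [hy]
    simp only
    rw [div_le_one hpos]
    exact hmax i (Finset.mem_of_mem_erase hi)
  have hsumR : -1 ≤ ∑ i ∈ R, y i := by
    have h1 : ∑ i ∈ A, y i = y a + ∑ i ∈ R, y i := (Finset.add_sum_erase A y ha).symm
    have h2 : 0 ≤ ∑ i ∈ A, y i := by
      rw [hy, ← Finset.sum_div]; positivity
    linarith
  set o : ℕ := (A.card + 4 * k - 1) / (4 * k) with ho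
  have hk4 : 0 < 4 * k := by omega
  have o1 : 4 * k * o ≤ A.card + 4 * k - 1 := Nat.mul_div_le _ _
  have o2 : A.card ≤ 4 * k * o := by
    have := Nat.lt_mul_div_succ (A.card + 4 * k - 1) hk4
    rw [← ho] at this
    have h3 : 4 * k * (o + 1) = 4 * k * o + 4 * k := by ring
    omega
  have o3 : 8 * o ≤ 4 * k * o := by nlinarith
  have o4 : o < R.card := by omega
  obtain ⟨O, D, hOR, hOc, hD0, hDx, hord, hsumB⟩ := hOut ι R y o o4 hsumR
  set B := R \ O with hB
  have hBcard : B.card + o = R.card := by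
    rw [hB, Finset.card_sdiff_of_subset hOR, hOc]; omega
  have hB20 : 20 * k ≤ B.card := by omega
  refine ⟨O, by rw [hOc]; exact o1, hOR, ?_⟩
  by_cases hfew : 901 * pos y B k < B.card.choose k
  · left
    have hkey : -1 + (B.card : ℝ) / (4 * k) * D ≤ ∑ i ∈ B, y i := by
      refine le_trans ?_ hsumB
      have h1 : (B.card : ℝ) / (4 * k) ≤ o := by
        rw [div_le_iff₀ (by positivity)]
        have : (B.card : ℝ) ≤ 4 * k * o := by exact_mod_cast (by omega : B.card ≤ 4 * k * o)
        linarith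
      have := mul_le_mul_of_nonneg_right h1 hD0
      linarith
    obtain ⟨c1, c2, c3⟩ := hA ι B y k D (by omega) hB20 hD0
      (fun i hi => ⟨hDx i hi, hle1 i (Finset.mem_of_subset Finset.sdiff_subset hi)⟩) hkey hfew
    have hsq : (k : ℝ) * ∑ i ∈ B, y i ^ 2 ≤ 37 * (B.card : ℝ) := c3
    refine ⟨hk, hOR, hord, ?_, ?_, c2, hsq, hB20, ?_⟩
    · intro i hi
      rw [abs_le]
      exact ⟨by linarith [hDx i hi], hle1 i (Finset.mem_of_subset Finset.sdiff_subset hi)⟩
    · refine le_trans ?_ hsumB
      have : 0 ≤ (o : ℝ) * D := by positivity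
      linarith
    · rw [hOc]
      have : 10 * (k * o) * 2 ≤ 3 * R.card * 2 := by
        have h5 : 10 * (k * o) * 2 = 5 * (4 * k * o) := by ring
        rw [h5]
        omega
      omega
  · right
    push Not at hfew
    have h1 : pos y B k ≤ pos y R k := by
      unfold pos
      apply Finset.card_le_card
      apply Finset.filter_subset_filter
      exact Finset.powersetCard_mono Finset.sdiff_subset
    have h2 := hC R.card o k (by omega)
    have h3 : R.card - o = B.card := by omega
    rw [h3] at h2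
    have h4 : (7 : ℝ) / 10 * R.card ≤ (R.card : ℝ) - k * o := by
      have : 10 * (k * o) * 2 ≤ 3 * R.card * 2 := by
        have h5 : 10 * (k * o) * 2 = 5 * (4 * k * o) := by ring
        rw [h5]
        omega
      have h6 : (10 * (k * o) : ℝ) ≤ 3 * R.card := by exact_mod_cast (by omega : 10 * (k * o) ≤ 3 * R.card)
      linarith
    have hRpos : (0 : ℝ) < R.card := by exact_mod_cast (by omega : 0 < R.card)
    have h5 : (7 : ℝ) / 10 * (R.card.choose k : ℝ) ≤ (B.card.choose k : ℝ) := by
      have h6 : (7 : ℝ) / 10 * R.card * (R.card.choose k : ℝ)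
          ≤ (R.card : ℝ) * (B.card.choose k : ℝ) := by
        refine le_trans ?_ h2
        exact mul_le_mul_of_nonneg_right h4 (Nat.cast_nonneg _)
      have h7 : (R.card : ℝ) * ((7 : ℝ) / 10 * (R.card.choose k : ℝ))
          ≤ (R.card : ℝ) * (B.card.choose k : ℝ) := by linarith
      exact le_of_mul_le_mul_left h7 hRpos
    have h8 : ((B.card.choose k : ℕ) : ℝ) ≤ 901 * (pos y R k : ℝ) := by
      have : B.card.choose k ≤ 901 * pos y R k := by omega
      exact_mod_cast this
    have h9 : (7 : ℝ) * (R.card.choose k : ℝ) ≤ 9010 * (pos y R k : ℝ) := by linarith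
    exact_mod_cast h9

/-- k C(N,k) = N C(N-1,k-1) -/
lemma choose_rel (N k : ℕ) (hk : 1 ≤ k) (hN : 1 ≤ N) :
    (k : ℝ) * (N.choose k : ℝ) = (N : ℝ) * ((N - 1).choose (k - 1) : ℝ) := by
  obtain ⟨l, rfl⟩ : ∃ l, k = l + 1 := ⟨k - 1, by omega⟩
  obtain ⟨M, rfl⟩ : ∃ M, N = M + 1 := ⟨N - 1, by omega⟩
  have := Nat.add_one_mul_choose_eq M l
  simp only [Nat.add_sub_cancel]
  have h2 : ((M + 1 : ℕ) : ℝ) * (M.choose l : ℝ) = ((M + 1).choose (l + 1) : ℝ) * ((l + 1 : ℕ) : ℝ) := by
    exact_mod_cast this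
  linarith

/-- k C(M,k) = (M-k+1) C(M,k-1) -/
lemma choose_rel2 (M k : ℕ) (hk : 1 ≤ k) (hkM : k ≤ M + 1) :
    (k : ℝ) * (M.choose k : ℝ) = ((M : ℝ) + 1 - k) * (M.choose (k - 1) : ℝ) := by
  obtain ⟨l, rfl⟩ : ∃ l, k = l + 1 := ⟨k - 1, by omega⟩
  simp only [Nat.add_sub_cancel]
  have := Nat.choose_succ_right_eq M l
  have h2 : (M.choose (l + 1) : ℝ) * ((l + 1 : ℕ) : ℝ) = (M.choose l : ℝ) * ((M - l : ℕ) : ℝ) := by
    exact_mod_cast this
  rw [Nat.cast_sub (by omega)] at h2
  push_cast at h2 ⊢
  linarith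

theorem base (hOut : Outliers) (hA : ClaimA) (hC : Clean) (hSD : StarDeg) (hSp : Split)
    (k N : ℕ) (hk : 2 ≤ k) (hN : 24 * k ≤ N) : W k N (k / (64 * N)) := by
  intro ι _ A x hAc hinj hsum
  subst hAc
  obtain ⟨a, ha, y, hya, hyinj, hysum, hypos, O, hO1, hO2, hcase⟩ :=
    setup hOut hA hC A x k hk hN hinj hsum
  rw [← hypos k]
  have hRcard : (A.erase a).card = A.card - 1 := Finset.card_erase_of_mem ha
  have key : ((A.card - 1).choose (k - 1) : ℝ) ≤ 64 * (pos y A k : ℝ) := by
    have hsplit := hSp ι A a y k (by omega) ha hya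
    rcases hcase with hT | hbig
    · have h := hSD ι _ O y k hT
      rw [hRcard] at h
      have : (A.card - 1).choose (k - 1) ≤ 64 * pos y A k := by
        rw [hsplit]
        omega
      exact_mod_cast this
    · rw [hRcard] at hbig
      have h1 := choose_rel2 (A.card - 1) k (by omega) (by omega)
      have h2 : (7 : ℝ) * ((A.card - 1).choose k : ℝ) ≤ 9010 * (pos y (A.erase a) k : ℝ) := by
        exact_mod_cast hbig
      have h3 : (pos y (A.erase a) k : ℝ) ≤ pos y A k := by
        rw [hsplit]; push_cast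
        have : (0 : ℝ) ≤ (above y (A.erase a) (k - 1) : ℝ) := Nat.cast_nonneg _
        linarith
      have hkR : (2 : ℝ) ≤ k := by exact_mod_cast hk
      have hc : (((A.card - 1 : ℕ) : ℝ) + 1 - k) = (A.card : ℝ) - k := by
        rw [Nat.cast_sub (by omega)]; push_cast; ring
      rw [hc] at h1
      have h4 : (23 : ℝ) * k ≤ (A.card : ℝ) - k := by
        have : (24 : ℝ) * k ≤ A.card := by exact_mod_cast hN
        linarith
      have hch : (0 : ℝ) ≤ ((A.card - 1).choose (k - 1) : ℝ) := Nat.cast_nonneg _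
      have h5 : (23 : ℝ) * k * ((A.card - 1).choose (k - 1) : ℝ)
          ≤ (k : ℝ) * ((A.card - 1).choose k : ℝ) := by
        rw [h1]; exact mul_le_mul_of_nonneg_right h4 hch
      have h6 : (23 : ℝ) * ((A.card - 1).choose (k - 1) : ℝ) ≤ ((A.card - 1).choose k : ℝ) := by
        have : (k : ℝ) * ((23 : ℝ) * ((A.card - 1).choose (k - 1) : ℝ))
            ≤ (k : ℝ) * ((A.card - 1).choose k : ℝ) := by linarith
        exact le_of_mul_le_mul_left this (by linarith)
      linarith
  have hNpos : (0 : ℝ) < A.card := by exact_mod_cast (by omega : 0 < A.card)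
  have h1 := choose_rel A.card k (by omega) (by omega)
  have h2 : (k : ℝ) / (64 * A.card) * (A.card.choose k : ℝ)
      = ((A.card - 1).choose (k - 1) : ℝ) / 64 := by
    field_simp
    linarith
  rw [h2]
  linarith

theorem allW (hOut : Outliers) (hA : ClaimA) (hC : Clean) (hSD : StarDeg) (hSp : Split)
    (hRec : Recursion) (k : ℕ) (hk : 2 ≤ k) :
    ∀ n, 24 * k ≤ n → W k n (k / (n + 1600 * k)) := by
  intro n
  induction n using Nat.strong_induction_on with
  | _ n ih =>
    intro hn
    have hkR : (2 : ℝ) ≤ k := by exact_mod_cast hk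
    by_cases h : n < 25 * k
    · have hb := base hOut hA hC hSD hSp k n hk hn
      intro ι _ A x hAc hinj hsum
      refine le_trans ?_ (hb ι A x hAc hinj hsum)
      apply mul_le_mul_of_nonneg_right _ (Nat.cast_nonneg _)
      have hnR : (n : ℝ) < 25 * k := by exact_mod_cast h
      have hnR' : (24 : ℝ) * k ≤ n := by exact_mod_cast hn
      apply div_le_div_of_nonneg_left (by positivity) (by linarith)
      linarith
    · push Not at h
      obtain ⟨n', rfl⟩ : ∃ n', n = n' + k := ⟨n - k, by omega⟩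
      have h1 := hRec k n' _ (by omega) (by positivity) (ih n' (by omega) (by omega))
      have hn' : (24 : ℝ) * k ≤ n' := by exact_mod_cast (by omega : 24 * k ≤ n')
      have e : (k : ℝ) / (n' + 1600 * k) / (1 + (k : ℝ) / (n' + 1600 * k))
          = (k : ℝ) / (((n' + k : ℕ) : ℝ) + 1600 * k) := by
        have : (0 : ℝ) < n' + 1600 * k := by linarith
        field_simp
        push_cast
        ring
      rw [e] at h1
      exact h1

theorem main (hOut : Outliers) (hA : ClaimA) (hC : Clean) (hSD : StarDeg) (hSp : Split)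
    (hRec : Recursion) (hG : Gain) (hDb : Double) (k N : ℕ) (hk : 2 ≤ k)
    (hN : 1000000 * k ≤ N) (A : Finset ι) (x : ι → ℝ) (hAc : A.card = N)
    (hinj : Set.InjOn x A) (hsum : 0 ≤ ∑ i ∈ A, x i) :
    (N - 1).choose (k - 1) ≤ pos x A k := by
  obtain ⟨n, hn⟩ : ∃ n, N = n + k := ⟨N - k, by omega⟩
  have hW := allW hOut hA hC hSD hSp hRec k hk n (by omega)
  obtain ⟨a, ha, y, hya, hyinj, hysum, hypos, O, hO1, hO2, hcase⟩ :=
    setup hOut hA hC A x k hk (by omega) hinj hsum
  rw [← hypos k]
  have hRcard : (A.erase a).card = N - 1 := by rw [Finset.card_erase_of_mem ha, hAc]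
  have hsplit := hSp ι A a y k (by omega) ha hya
  have hkR : (2 : ℝ) ≤ k := by exact_mod_cast hk
  have hnR : (999999 : ℝ) * k ≤ n := by exact_mod_cast (by omega : 999999 * k ≤ n)
  set P0 : ℝ := (pos y (A.erase a) k : ℝ) with hP0
  set P1 : ℝ := (above y (A.erase a) (k - 1) : ℝ) with hP1
  have hP0' : 0 ≤ P0 := Nat.cast_nonneg _
  have hP1' : 0 ≤ P1 := Nat.cast_nonneg _
  set CM : ℝ := ((N - 1).choose (k - 1) : ℝ) with hCM
  have hCM0 : 0 ≤ CM := Nat.cast_nonneg _
  suffices hmain : CM ≤ P0 + P1 by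
    have : (((N - 1).choose (k - 1) : ℕ) : ℝ) ≤ ((pos y A k : ℕ) : ℝ) := by
      rw [hsplit]; push_cast; exact hmain
    exact_mod_cast this
  rcases hcase with hT | hbig
  · -- tame case
    set R := A.erase a with hR
    have hBc : (R \ O).card + O.card = R.card := by
      rw [Finset.card_sdiff_of_subset hO2]
      have := Finset.card_le_card hO2
      omega
    have o3 : 8 * O.card ≤ 4 * k * O.card := by nlinarith
    have hb1 : 100000 * k ≤ (R \ O).card := by omega
    have hb2 : 10 * (k * O.card) ≤ 3 * ((R \ O).card - k) := by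
      have h5 : 2 * (10 * (k * O.card)) = 5 * (4 * k * O.card) := by ring
      omega
    have hgain := hG ι R O y k hT hb1 hb2
    rw [hRcard] at hgain
    have hd := hDb ι A a y k n _ hk (by rw [hAc, hn]) (by omega) ha hya hyinj hysum hW
    rw [← hR, hRcard] at hd
    have hNk : N - 1 - k = n - 1 := by omega
    rw [hNk] at hgain
    set C1 : ℝ := ((n - 1).choose (k - 1) : ℝ) with hC1
    have hC1pos : 0 < C1 := by
      rw [hC1]; exact_mod_cast Nat.choose_pos (by omega)
    have hgain' : P0 * C1 ≤ 625 * (pairs y R k : ℝ) := by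
      rw [hP0, hC1]; exact_mod_cast hgain
    have hrel := choose_rel n k (by omega) (by omega)
    rw [← hC1] at hrel
    have hden : (0 : ℝ) < n + 1600 * k := by linarith
    have e1 : (k : ℝ) / (n + 1600 * k) * (n.choose k : ℝ) = (n : ℝ) / (n + 1600 * k) * C1 := by
      field_simp
      linarith
    have hd' : (CM - P1) * ((n : ℝ) / (n + 1600 * k) * C1) + (pairs y R k : ℝ) ≤ P0 * C1 := by
      have : (CM - P1) * ((k : ℝ) / (n + 1600 * k)) * (n.choose k : ℝ)
          = (CM - P1) * ((n : ℝ) / (n + 1600 * k) * C1) := by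
        rw [mul_assoc, e1]
      rw [← this]
      exact hd
    by_cases hneg : CM - P1 ≤ 0
    · linarith
    · push Not at hneg
      have hfrac : (624 : ℝ) / 625 ≤ (n : ℝ) / (n + 1600 * k) := by
        rw [div_le_div_iff₀ (by norm_num) hden]
        linarith
      have h1 : (CM - P1) * (624 / 625 * C1) ≤ (CM - P1) * ((n : ℝ) / (n + 1600 * k) * C1) := by
        apply mul_le_mul_of_nonneg_left _ hneg.le
        exact mul_le_mul_of_nonneg_right hfrac hC1pos.le
      have h2 : (CM - P1) * (624 / 625 * C1) ≤ 624 / 625 * (P0 * C1) := by linarith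
      have h3 : C1 * (CM - P1) ≤ C1 * P0 := by linarith
      have := le_of_mul_le_mul_left h3 hC1pos
      linarith
  · rw [hRcard] at hbig
    have h1 := choose_rel2 (N - 1) k (by omega) (by omega)
    rw [← hCM] at h1
    have h2 : (7 : ℝ) * ((N - 1).choose k : ℝ) ≤ 9010 * P0 := by
      rw [hP0]; exact_mod_cast hbig
    have hc : (((N - 1 : ℕ) : ℝ) + 1 - k) = (n : ℝ) := by
      rw [Nat.cast_sub (by omega), hn]; push_cast; ring
    rw [hc] at h1
    have h5 : (999999 : ℝ) * k * CM ≤ (k : ℝ) * ((N - 1).choose k : ℝ) := by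
      rw [h1]; exact mul_le_mul_of_nonneg_right hnR hCM0
    have h6 : (999999 : ℝ) * CM ≤ ((N - 1).choose k : ℝ) := by
      have : (k : ℝ) * ((999999 : ℝ) * CM) ≤ (k : ℝ) * ((N - 1).choose k : ℝ) := by linarith
      exact le_of_mul_le_mul_left this (by linarith)
    linarith

end Pool.Agent.Work.MaxSums.helper84Main
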