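import Pool.Agent.Work.MP_9999b5_ms.Defs

set_option autoImplicit false

namespace Pool.Agent.Work.MaxSums.helper84Split

open Finset

theorem holds : Split := by
  intro ι _ A a x k hk ha hxa
  obtain ⟨l, rfl⟩ : ∃ l, k = l + 1 := ⟨k - 1, by omega⟩
  have hA : A = insert a (A.erase a) := (Finset.insert_erase ha).symm
  have hna : a ∉ A.erase a := Finset.notMem_erase a A
  unfold pos above
  simp only [Nat.add_sub_cancel]
  conv_lhs => rw [hA, Finset.powersetCard_succ_insert hna]
  rw [Finset.filter_union, Finset.card_union_of_disjoint]
  · congr 1
    rw [Finset.filter_image, Finset.card_image_of_injOn]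
    · apply congrArg Finset.card
      apply Finset.filter_congr
      intro U hU
      have haU : a ∉ U := fun h => hna ((Finset.mem_powersetCard.1 hU).1 h)
      rw [Finset.sum_insert haU, hxa]
      constructor <;> intro h <;> linarith
    · intro U hU V hV hUV
      have hU' := (Finset.mem_powersetCard.1 (Finset.mem_filter.1 hU).1).1
      have hV' := (Finset.mem_powersetCard.1 (Finset.mem_filter.1 hV).1).1
      have haU : a ∉ U := fun h => hna (hU' h)
      have haV : a ∉ V := fun h => hna (hV' h)
      have := congrArg (fun s => Finset.erase s a) hUV
      simpa [Finset.erase_insert haU, Finset.erase_insert haV] using this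
  · apply Finset.disjoint_filter_filter
    rw [Finset.disjoint_left]
    intro S hS hS'
    obtain ⟨U, hU, rfl⟩ := Finset.mem_image.1 hS'
    exact hna ((Finset.mem_powersetCard.1 hS).1 (Finset.mem_insert_self a U))

end Pool.Agent.Work.MaxSums.helper84Split
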