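import Pool.Agent.Work.MP_9999b5_ms_helper12.ClaimA
import Pool.Agent.Work.MP_9999b5_ms_helper12.Fourth
import Pool.Agent.Work.MP_9999b5_ms_helper46.Exchange
import Pool.Agent.Work.MP_9999b5_ms_helper46.Outliers
import Pool.Agent.Work.MP_9999b5_ms_helper46.PZ
import Pool.Agent.Work.MP_9999b5_ms_helper46.SumLin
import Pool.Agent.Work.MP_9999b5_ms_helper74.Cheb
import Pool.Agent.Work.MP_9999b5_ms_helper74.Clean
import Pool.Agent.Work.MP_9999b5_ms_helper74.MostClean
import Pool.Agent.Work.MP_9999b5_ms_helper74.PosProb
import Pool.Agent.Work.MP_9999b5_ms_helper74.StarDeg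
import Pool.Agent.Work.MP_9999b5_ms_helper74.StarDegS
import Pool.Agent.Work.MP_9999b5_ms_helper83.Double
import Pool.Agent.Work.MP_9999b5_ms_helper83.SumSq
import Pool.Agent.Work.MP_9999b5_ms_helper84.Anti
import Pool.Agent.Work.MP_9999b5_ms_helper84.Gain
import Pool.Agent.Work.MP_9999b5_ms_helper84.Main
import Pool.Agent.Work.MP_9999b5_ms_helper84.Split
import Pool.Agent.Work.MP_9999b5_ms_helper84.Top
import Pool.Agent.Work.MP_9999b5_ms_helper90.Swap
import Pool.Agent.Work.MP_9999b5_ms_helper90.Repart
import Pool.Agent.Work.MP_9999b5_ms_helper93.FewWild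
import Pool.Agent.Work.MP_9999b5_ms_helper93.Recursion

set_option autoImplicit false

namespace Pool.Agent.Work.MaxSums

open Finset

theorem linear (k N : ℕ) (hk : 2 ≤ k) (hN : 1000000 * k ≤ N) {ι : Type} [DecidableEq ι]
    (A : Finset ι) (x : ι → ℝ) (hAc : A.card = N) (hinj : Set.InjOn x A)
    (hsum : 0 ≤ ∑ i ∈ A, x i) : (N - 1).choose (k - 1) ≤ pos x A k := by
  have hL := helper46SumLin.holds
  have hQ := helper83SumSq.holds
  have hE := helper46Exchange.holds
  have hP := helper46PZ.holds
  have hC := helper74Clean.holds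
  have hPP := helper74PosProb.holds hL hQ hP
  have hCh := helper74Cheb.holds hL hQ
  have hF := helper12Fourth.holds hL hQ hE
  have hAn := helper84Anti.holds hL hQ hF
  have hCA := helper12ClaimA.holds hAn hPP
  exact helper84Main.main helper46Outliers.holds hCA hC (helper74StarDeg.holds hPP hC)
    helper84Split.holds helper93Recursion.holds
    (helper84Gain.holds helper90Swap.holds (helper74StarDegS.holds hPP hC)
      helper74MostClean.holds (helper93FewWild.holds hE) (helper90Repart.holds hCh hC))
    helper83Double.holds k N hk hN A x hAc hinj hsum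

theorem linear_greatest (k n : ℕ) (hk : 0 < k) (hn : 1000000 * k ≤ n) :
    IsGreatest (values k n) ((n - 1).choose k) := by
  refine isGreatest_of k n hk (by omega) (fun A hA hs => ?_)
  rcases Nat.lt_or_ge k 2 with h | h
  · have : k = 1 := by omega
    subst this
    exact one n (by omega) A hA hs
  · have := linear k n h hn A (fun a => -a) hA (fun a _ b _ h => neg_injective h)
      (by rw [Finset.sum_neg_distrib, hs, neg_zero])
    exact this

end Pool.Agent.Work.MaxSums
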