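import Pool.Agent.Work.MP_9999b5_ms.Defs

set_option autoImplicit false

namespace Pool.Agent.Work.MaxSums.Transfer

open Finset

variable {ι : Type} [DecidableEq ι]

lemma exists_neg_min (x : ι → ℝ) (T : Finset ι) (hinj : Set.InjOn x T) (h2 : 2 ≤ T.card)
    (hs : ∑ i ∈ T, x i = 0) : ∃ t ∈ T, x t < 0 ∧ ∀ i ∈ T, x t ≤ x i := by
  have hne : T.Nonempty := by rw [← Finset.card_pos]; omega
  obtain ⟨t, ht, hmin⟩ := Finset.exists_min_image T x hne
  refine ⟨t, ht, ?_, hmin⟩
  by_contra hcon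
  push Not at hcon
  obtain ⟨b, hb⟩ : (T.erase t).Nonempty := by
    rw [← Finset.card_pos, Finset.card_erase_of_mem ht]; omega
  have hbT := Finset.mem_of_mem_erase hb
  have hlt : x t < x b := lt_of_le_of_ne (hmin b hbT)
    (fun h => Finset.ne_of_mem_erase hb (hinj hbT ht h.symm))
  have : ∑ i ∈ T, (0 : ℝ) < ∑ i ∈ T, x i :=
    Finset.sum_lt_sum (fun i hi => hcon.trans (hmin i hi)) ⟨b, hbT, by linarith⟩
  simp at this
  linarith

lemma exists_pos_max (x : ι → ℝ) (U : Finset ι) (hinj : Set.InjOn x U) (h2 : 2 ≤ U.card)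
    (hs : ∑ i ∈ U, x i = 0) : ∃ u ∈ U, 0 < x u ∧ ∀ i ∈ U, x i ≤ x u := by
  obtain ⟨u, hu, h1, h3⟩ := exists_neg_min (fun i => -x i) U
    (fun a ha b hb h => hinj ha hb (neg_injective h)) h2 (by
      rw [Finset.sum_neg_distrib, hs, neg_zero])
  exact ⟨u, hu, by linarith, fun i hi => by have := h3 i hi; linarith⟩

/-- the counts `s`, `r` -/
lemma sr (x : ι → ℝ) (T U : Finset ι) (t u : ι) (ht : t ∈ T) (hu : u ∈ U)
    (hT : ∑ i ∈ T, x i = 0) (hU : ∑ i ∈ U, x i = 0)
    (ht0 : x t < 0) (hu0 : 0 < x u) (hmin : ∀ i ∈ T, x t ≤ x i) (hmax : ∀ i ∈ U, x i ≤ x u) :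
    T.card * U.card ≤ (T.filter (fun i => x i < x u)).card * U.card
      + (U.filter (fun i => x t < x i)).card * T.card := by
  set s := (T.filter (fun i => x i < x u)).card with hs
  set r := (U.filter (fun i => x t < x i)).card with hr
  have hsT : s ≤ T.card := Finset.card_filter_le _ _
  have hrU : r ≤ U.card := Finset.card_filter_le _ _
  have hs' : ((T.filter (fun i => ¬ x i < x u)).card : ℝ) = (T.card : ℝ) - s := by
    have := Finset.card_filter_add_card_filter_not (s := T) (fun i => x i < x u)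
    rw [← this]; push_cast; ring
  have hr' : ((U.filter (fun i => ¬ x t < x i)).card : ℝ) = (U.card : ℝ) - r := by
    have := Finset.card_filter_add_card_filter_not (s := U) (fun i => x t < x i)
    rw [← this]; push_cast; ring
  -- U
  have h1 : 0 ≤ (r : ℝ) * x u + ((U.card : ℝ) - r) * x t := by
    rw [← hU, ← Finset.sum_filter_add_sum_filter_not U (fun i => x t < x i)]
    apply add_le_add
    · have := Finset.sum_le_card_nsmul (U.filter (fun i => x t < x i)) x (x u)
        (fun i hi => hmax i (Finset.mem_filter.1 hi).1)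
      rwa [nsmul_eq_mul] at this
    · have := Finset.sum_le_card_nsmul (U.filter (fun i => ¬ x t < x i)) x (x t)
        (fun i hi => not_lt.1 (Finset.mem_filter.1 hi).2)
      rwa [nsmul_eq_mul, hr'] at this
  have h2 : (s : ℝ) * x t + ((T.card : ℝ) - s) * x u ≤ 0 := by
    rw [← hT, ← Finset.sum_filter_add_sum_filter_not T (fun i => x i < x u)]
    apply add_le_add
    · have := Finset.card_nsmul_le_sum (T.filter (fun i => x i < x u)) x (x t)
        (fun i hi => hmin i (Finset.mem_filter.1 hi).1)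
      rwa [nsmul_eq_mul] at this
    · have := Finset.card_nsmul_le_sum (T.filter (fun i => ¬ x i < x u)) x (x u)
        (fun i hi => not_lt.1 (Finset.mem_filter.1 hi).2)
      rwa [nsmul_eq_mul, hs'] at this
  have hsR : (s : ℝ) ≤ T.card := by exact_mod_cast hsT
  have hrR : (r : ℝ) ≤ U.card := by exact_mod_cast hrU
  have hs0 : (0 : ℝ) ≤ s := Nat.cast_nonneg _
  have hr0 : (0 : ℝ) ≤ r := Nat.cast_nonneg _
  -- (m - r) |t| ≤ r u,  (k - s) u ≤ s |t|
  have h3 : ((U.card : ℝ) - r) * (-x t) ≤ r * x u := by linarith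
  have h4 : ((T.card : ℝ) - s) * x u ≤ s * (-x t) := by linarith
  have h5 : (((U.card : ℝ) - r) * (-x t)) * (((T.card : ℝ) - s) * x u)
      ≤ (r * x u) * (s * (-x t)) := by
    apply mul_le_mul h3 h4
    · apply mul_nonneg <;> linarith
    · positivity
  have h6 : ((U.card : ℝ) - r) * ((T.card : ℝ) - s) ≤ r * s := by
    have hp : 0 < (-x t) * x u := mul_pos (by linarith) hu0
    have : (((U.card : ℝ) - r) * ((T.card : ℝ) - s)) * ((-x t) * x u)
        ≤ (r * s) * ((-x t) * x u) := by linarith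
    exact le_of_mul_le_mul_right this hp
  have h7 : (T.card : ℝ) * U.card ≤ s * U.card + r * T.card := by nlinarith
  exact_mod_cast h7

/-- moves of type A -/
noncomputable def Am (x : ι → ℝ) (T Z U : Finset ι) : Finset ((ι × ι) × (ι × ι)) :=
  ((T ×ˢ U) ×ˢ (Z ×ˢ U)).filter (fun q => x q.1.1 < x q.1.2 ∧ x q.2.1 < x q.2.2 ∧ q.1.2 ≠ q.2.2)

/-- moves of type B: `t < z < w` -/
noncomputable def Bm (x : ι → ℝ) (T Z U : Finset ι) : Finset (ι × ι × ι) :=
  (T ×ˢ Z ×ˢ U).filter (fun q => x q.1 < x q.2.1 ∧ x q.2.1 < x q.2.2)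

lemma Am_ge (x : ι → ℝ) (T Z U : Finset ι) (t : ι) (ht : t ∈ T) :
    ((U.filter (fun i => x t < x i)).card - 1) *
      ((Z ×ˢ U).filter (fun q => x q.1 < x q.2)).card ≤ (Am x T Z U).card := by
  set a := (Z ×ˢ U).filter (fun q => x q.1 < x q.2) with ha
  have h1 : ∑ q ∈ a, ((U.filter (fun i => x t < x i)).card - 1)
      ≤ ∑ q ∈ a, ((U.filter (fun i => x t < x i)).erase q.2).card := by
    apply Finset.sum_le_sum
    intro q _
    exact Finset.pred_card_le_card_erase
  rw [Finset.sum_const, smul_eq_mul, mul_comm, ← Finset.card_sigma] at h1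
  refine h1.trans ?_
  apply Finset.card_le_card_of_injOn
    (fun p : (Σ _ : ι × ι, ι) => ((t, p.2), p.1))
  · rintro ⟨⟨z, w'⟩, w⟩ hp
    have hp' := Finset.mem_sigma.1 hp
    have hq := Finset.mem_filter.1 hp'.1
    have hw := Finset.mem_erase.1 hp'.2
    have hw2 := Finset.mem_filter.1 hw.2
    have hq1 := Finset.mem_product.1 hq.1
    unfold Am
    refine Finset.mem_coe.2 (Finset.mem_filter.2 ⟨Finset.mem_product.2
      ⟨Finset.mem_product.2 ⟨ht, hw2.1⟩, hq.1⟩, hw2.2, hq.2, hw.1⟩)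
  · rintro ⟨q, w⟩ _ ⟨q', w'⟩ _ h
    simp only [Prod.mk.injEq] at h
    obtain ⟨⟨_, h1⟩, h2⟩ := h
    subst h1; subst h2
    rfl

/-- the symmetric version -/
lemma Am_symm (x : ι → ℝ) (T Z U : Finset ι) : (Am x T Z U).card = (Am x Z T U).card := by
  refine Finset.card_bij' (fun q _ => (q.2, q.1)) (fun q _ => (q.2, q.1)) ?_ ?_ ?_ ?_
  · intro q hq
    unfold Am at hq ⊢
    simp only [Finset.mem_filter, Finset.mem_product] at hq ⊢
    tauto
  · intro q hq
    unfold Am at hq ⊢
    simp only [Finset.mem_filter, Finset.mem_product] at hq ⊢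
    tauto
  · intro q _; rfl
  · intro q _; rfl

lemma Bm_ge (x : ι → ℝ) (T Z U : Finset ι) (u : ι) (hu : u ∈ U)
    (hTZ : ∀ a ∈ T, ∀ b ∈ Z, x a ≠ x b) :
    (T.filter (fun i => x i < x u)).card * (Z.filter (fun i => x i < x u)).card
      ≤ (Bm x T Z U).card + (Bm x Z T U).card := by
  set s := (T.filter (fun i => x i < x u)) ×ˢ (Z.filter (fun i => x i < x u)) with hs
  rw [← Finset.card_product, ← Finset.card_filter_add_card_filter_not (s := s)
    (fun q => x q.1 < x q.2)]
  apply add_le_add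
  · apply Finset.card_le_card_of_injOn (fun q => (q.1, q.2, u))
    · intro q hq
      have h1 := Finset.mem_filter.1 hq
      have h2 := Finset.mem_product.1 h1.1
      have h3 := Finset.mem_filter.1 h2.1
      have h4 := Finset.mem_filter.1 h2.2
      unfold Bm
      exact Finset.mem_coe.2 (Finset.mem_filter.2 ⟨Finset.mem_product.2 ⟨h3.1,
        Finset.mem_product.2 ⟨h4.1, hu⟩⟩, h1.2, h4.2⟩)
    · rintro ⟨a, b⟩ _ ⟨c, d⟩ _ h
      simp only [Prod.mk.injEq] at h ⊢
      tauto
  · apply Finset.card_le_card_of_injOn (fun q => (q.2, q.1, u))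
    · intro q hq
      have h1 := Finset.mem_filter.1 hq
      have h2 := Finset.mem_product.1 h1.1
      have h3 := Finset.mem_filter.1 h2.1
      have h4 := Finset.mem_filter.1 h2.2
      unfold Bm
      refine Finset.mem_coe.2 (Finset.mem_filter.2 ⟨Finset.mem_product.2 ⟨h4.1,
        Finset.mem_product.2 ⟨h3.1, hu⟩⟩, ?_, h3.2⟩)
      exact lt_of_le_of_ne (not_lt.1 h1.2) (fun h => hTZ _ h3.1 _ h4.1 h.symm)
    · rintro ⟨a, b⟩ _ ⟨c, d⟩ _ h
      simp only [Prod.mk.injEq] at h ⊢
      tauto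

lemma arith (k m a s r s' r' a' : ℕ) (hk : 2 ≤ k) (hm : 3 * k ≤ m) (h1 : s * s' < k)
    (h2 : s ≤ s') (h3 : k * m ≤ s * m + r * k) (h4 : k * m ≤ s' * m + r' * k)
    (h5 : s' ≤ a') (h6 : r' ≤ a') (h7 : (r - 1) * a' ≤ a) : k ^ 2 ≤ 2 * a := by
  have hs2 : 2 * s ≤ k := by
    by_contra hcon
    push Not at hcon
    have h8 : s * s < k := lt_of_le_of_lt (Nat.mul_le_mul_left s h2) h1
    nlinarith
  have hr : m ≤ 2 * r := by
    have h8 : 2 * (s * m) ≤ k * m := by
      calc 2 * (s * m) = (2 * s) * m := by ring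
        _ ≤ k * m := Nat.mul_le_mul_right m hs2
    have h9 : m * k ≤ (2 * r) * k := by
      have e1 : (2 * r) * k = 2 * (r * k) := by ring
      have e2 : m * k = k * m := by ring
      rw [e1, e2]; omega
    exact Nat.le_of_mul_le_mul_right h9 (by omega)
  have ha : k ≤ 2 * a' := by
    by_cases h8 : k ≤ 2 * s'
    · omega
    · push Not at h8
      have h10 : m ≤ 2 * r' := by
        have h8' : 2 * (s' * m) ≤ k * m := by
          calc 2 * (s' * m) = (2 * s') * m := by ring
            _ ≤ k * m := Nat.mul_le_mul_right m h8.le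
        have h9 : m * k ≤ (2 * r') * k := by
          have e1 : (2 * r') * k = 2 * (r' * k) := by ring
          have e2 : m * k = k * m := by ring
          rw [e1, e2]; omega
        exact Nat.le_of_mul_le_mul_right h9 (by omega)
      omega
  have h10 : (3 * k - 2) * k ≤ (2 * (r - 1)) * (2 * a') := Nat.mul_le_mul (by omega) ha
  have h11 : (2 * (r - 1)) * (2 * a') ≤ 4 * a := by
    calc (2 * (r - 1)) * (2 * a') = 4 * ((r - 1) * a') := by ring
      _ ≤ 4 * a := Nat.mul_le_mul_left 4 h7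
  have h12 : 2 * k ^ 2 ≤ (3 * k - 2) * k := by
    have h13 : 2 * k ≤ 3 * k - 2 := by omega
    calc 2 * k ^ 2 = (2 * k) * k := by ring
      _ ≤ (3 * k - 2) * k := Nat.mul_le_mul_right k h13
  omega

/-- lower bound for the number of moves at a pair of disjoint zero sets -/
lemma local_bound (x : ι → ℝ) (T Z U : Finset ι) (k : ℕ) (hk : 2 ≤ k)
    (hTc : T.card = k) (hZc : Z.card = k) (hUc : 3 * k ≤ U.card)
    (hT : ∑ i ∈ T, x i = 0) (hZ : ∑ i ∈ Z, x i = 0) (hU : ∑ i ∈ U, x i = 0)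
    (hinjT : Set.InjOn x T) (hinjZ : Set.InjOn x Z) (hinjU : Set.InjOn x U)
    (hTZ : ∀ a ∈ T, ∀ b ∈ Z, x a ≠ x b) :
    k ^ 2 ≤ 2 * (Am x T Z U).card + k * ((Bm x T Z U).card + (Bm x Z T U).card) := by
  obtain ⟨u, hu, hu0, humax⟩ := exists_pos_max x U hinjU (by omega) hU
  obtain ⟨t, ht, ht0, htmin⟩ := exists_neg_min x T hinjT (by omega) hT
  obtain ⟨z, hz, hz0, hzmin⟩ := exists_neg_min x Z hinjZ (by omega) hZ
  have hsrT := sr x T U t u ht hu hT hU ht0 hu0 htmin humax
  have hsrZ := sr x Z U z u hz hu hZ hU hz0 hu0 hzmin humax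
  have hB := Bm_ge x T Z U u hu hTZ
  have hA1 := Am_ge x T Z U t ht
  have hA2 := Am_ge x Z T U z hz
  rw [Am_symm x Z T U] at hA2
  -- a_Z ≥ s_Z, r_Z
  have haZ1 : (Z.filter (fun i => x i < x u)).card ≤
      ((Z ×ˢ U).filter (fun q => x q.1 < x q.2)).card := by
    apply Finset.card_le_card_of_injOn (fun i => (i, u))
    · intro i hi
      have h1 := Finset.mem_filter.1 hi
      exact Finset.mem_coe.2 (Finset.mem_filter.2 ⟨Finset.mem_product.2 ⟨h1.1, hu⟩, h1.2⟩)
    · intro a _ b _ h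
      exact (Prod.mk.inj h).1
  have haZ2 : (U.filter (fun i => x z < x i)).card ≤
      ((Z ×ˢ U).filter (fun q => x q.1 < x q.2)).card := by
    apply Finset.card_le_card_of_injOn (fun i => (z, i))
    · intro i hi
      have h1 := Finset.mem_filter.1 hi
      exact Finset.mem_coe.2 (Finset.mem_filter.2 ⟨Finset.mem_product.2 ⟨hz, h1.1⟩, h1.2⟩)
    · intro a _ b _ h
      exact (Prod.mk.inj h).2
  have haT1 : (T.filter (fun i => x i < x u)).card ≤
      ((T ×ˢ U).filter (fun q => x q.1 < x q.2)).card := by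
    apply Finset.card_le_card_of_injOn (fun i => (i, u))
    · intro i hi
      have h1 := Finset.mem_filter.1 hi
      exact Finset.mem_coe.2 (Finset.mem_filter.2 ⟨Finset.mem_product.2 ⟨h1.1, hu⟩, h1.2⟩)
    · intro a _ b _ h
      exact (Prod.mk.inj h).1
  have haT2 : (U.filter (fun i => x t < x i)).card ≤
      ((T ×ˢ U).filter (fun q => x q.1 < x q.2)).card := by
    apply Finset.card_le_card_of_injOn (fun i => (t, i))
    · intro i hi
      have h1 := Finset.mem_filter.1 hi
      exact Finset.mem_coe.2 (Finset.mem_filter.2 ⟨Finset.mem_product.2 ⟨ht, h1.1⟩, h1.2⟩)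
    · intro a _ b _ h
      exact (Prod.mk.inj h).2
  rw [hTc] at hsrT
  rw [hZc] at hsrZ
  generalize (T.filter (fun i => x i < x u)).card = sT at *
  generalize (Z.filter (fun i => x i < x u)).card = sZ at *
  generalize (U.filter (fun i => x t < x i)).card = rT at *
  generalize (U.filter (fun i => x z < x i)).card = rZ at *
  generalize ((Z ×ˢ U).filter (fun q => x q.1 < x q.2)).card = aZ at *
  generalize ((T ×ˢ U).filter (fun q => x q.1 < x q.2)).card = aT at *
  generalize (Am x T Z U).card = a at *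
  generalize (Bm x T Z U).card = b at *
  generalize (Bm x Z T U).card = b' at *
  generalize U.card = m at *
  by_cases h1 : k ≤ sT * sZ
  · have h2 : k ≤ b + b' := h1.trans hB
    calc k ^ 2 = k * k := by ring
      _ ≤ k * (b + b') := Nat.mul_le_mul_left k h2
      _ ≤ 2 * a + k * (b + b') := Nat.le_add_left _ _
  · push Not at h1
    have : k ^ 2 ≤ 2 * a := by
      rcases le_total sT sZ with h2 | h2
      · exact arith k m a sT rT sZ rZ aZ hk hUc h1 h2 hsrT hsrZ haZ1 haZ2 hA1
      · exact arith k m a sZ rZ sT rT aT hk hUc (by rw [mul_comm]; exact h1) h2 hsrZ hsrT haT1 haT2 hA2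
    omega

end Pool.Agent.Work.MaxSums.Transfer
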