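import Pool.Agent.Work.MP_9999b5_ms_helper84.Transfer1

set_option autoImplicit false

namespace Pool.Agent.Work.MaxSums.Transfer

open Finset

variable {ι : Type} [DecidableEq ι]

/-- ordered pairs of disjoint `k`-subsets of `A` with property `P` -/
noncomputable def pr (A : Finset ι) (k : ℕ) (P : Finset ι → Prop) [DecidablePred P] :
    Finset (Σ _ : Finset ι, Finset ι) :=
  ((A.powersetCard k).filter P).sigma (fun T => ((A \ T).powersetCard k).filter P)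

lemma mem_pr {A : Finset ι} {k : ℕ} {P : Finset ι → Prop} [DecidablePred P]
    {T Z : Finset ι} : (⟨T, Z⟩ : Σ _ : Finset ι, Finset ι) ∈ pr A k P ↔
      T ⊆ A ∧ T.card = k ∧ P T ∧ Z ⊆ A ∧ Disjoint T Z ∧ Z.card = k ∧ P Z := by
  unfold pr
  simp only [Finset.mem_sigma, Finset.mem_filter, Finset.mem_powersetCard,
    Finset.subset_sdiff]
  constructor
  · rintro ⟨⟨⟨h1, h2⟩, h3⟩, ⟨⟨⟨h4, h5⟩, h6⟩, h7⟩⟩
    exact ⟨h1, h2, h3, h4, h5.symm, h6, h7⟩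
  · rintro ⟨h1, h2, h3, h4, h5, h6, h7⟩
    exact ⟨⟨⟨h1, h2⟩, h3⟩, ⟨⟨⟨h4, h5.symm⟩, h6⟩, h7⟩⟩

/-- exchange one element -/
def ex (T : Finset ι) (t w : ι) : Finset ι := insert w (T.erase t)

lemma ex_card {T : Finset ι} {t w : ι} (ht : t ∈ T) (hw : w ∉ T) : (ex T t w).card = T.card := by
  unfold ex
  rw [Finset.card_insert_of_notMem (fun h => hw (Finset.mem_of_mem_erase h)),
    Finset.card_erase_add_one ht]

lemma ex_sum (x : ι → ℝ) {T : Finset ι} {t w : ι} (ht : t ∈ T) (hw : w ∉ T) :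
    ∑ i ∈ ex T t w, x i = ∑ i ∈ T, x i - x t + x w := by
  unfold ex
  rw [Finset.sum_insert (fun h => hw (Finset.mem_of_mem_erase h))]
  have := Finset.add_sum_erase T x ht
  linarith

lemma ex_back {T : Finset ι} {t w : ι} (ht : t ∈ T) (hw : w ∉ T) : ex (ex T t w) w t = T := by
  unfold ex
  rw [Finset.erase_insert (fun h => hw (Finset.mem_of_mem_erase h)), Finset.insert_erase ht]

lemma ex_subset {T A : Finset ι} {t w : ι} (hT : T ⊆ A) (hw : w ∈ A) : ex T t w ⊆ A := by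
  unfold ex
  intro i hi
  rcases Finset.mem_insert.1 hi with rfl | h
  · exact hw
  · exact hT (Finset.mem_of_mem_erase h)

lemma mem_ex {T : Finset ι} {t w : ι} : w ∈ ex T t w := Finset.mem_insert_self _ _

lemma mem_ex_iff {T : Finset ι} {t w i : ι} : i ∈ ex T t w ↔ i = w ∨ (i ≠ t ∧ i ∈ T) := by
  unfold ex; simp

/-- Moves of type A inject into the pairs of positive sets with a marked element in each. -/
lemma count_A (x : ι → ℝ) (A : Finset ι) (k : ℕ) (hinj : Set.InjOn x A) :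
    ∑ p ∈ pr A k (fun S => ∑ i ∈ S, x i = 0), (Am x p.1 p.2 (A \ (p.1 ∪ p.2))).card
      ≤ k ^ 2 * (pr A k (fun S => 0 < ∑ i ∈ S, x i)).card := by
  rw [← Finset.card_sigma]
  have e1 : k ^ 2 * (pr A k (fun S => 0 < ∑ i ∈ S, x i)).card
      = ((pr A k (fun S => 0 < ∑ i ∈ S, x i)).sigma (fun p => p.1 ×ˢ p.2)).card := by
    rw [Finset.card_sigma, Finset.sum_congr rfl (g := fun _ => k ^ 2), Finset.sum_const,
      smul_eq_mul, mul_comm]
    rintro ⟨T, Z⟩ hp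
    have h := mem_pr.1 hp
    simp only [Finset.card_product]
    rw [h.2.1, h.2.2.2.2.2.1, sq]
  rw [e1]
  apply Finset.card_le_card_of_injOn
    (fun q => ⟨⟨ex q.1.1 q.2.1.1 q.2.1.2, ex q.1.2 q.2.2.1 q.2.2.2⟩, (q.2.1.2, q.2.2.2)⟩)
  · rintro ⟨⟨T, Z⟩, ⟨⟨t, w⟩, ⟨z, w'⟩⟩⟩ hq
    have hq' := Finset.mem_sigma.1 hq
    obtain ⟨hTA, hTc, hT0, hZA, hd, hZc, hZ0⟩ := mem_pr.1 hq'.1
    have hm := Finset.mem_filter.1 hq'.2
    simp only [Finset.mem_product, Finset.mem_sdiff, Finset.mem_union, not_or] at hm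
    obtain ⟨⟨⟨ht, hwA, hwT, hwZ⟩, hz, hw'A, hw'T, hw'Z⟩, hlt, hlt', hne⟩ := hm
    refine Finset.mem_coe.2 (Finset.mem_sigma.2 ⟨?_, ?_⟩)
    · refine mem_pr.2 ⟨ex_subset hTA hwA, by rw [ex_card ht hwT, hTc], ?_, ex_subset hZA hw'A,
        ?_, by rw [ex_card hz hw'Z, hZc], ?_⟩
      · rw [ex_sum x ht hwT, hT0]; linarith
      · rw [Finset.disjoint_left]
        intro i hi hi'
        rcases mem_ex_iff.1 hi with rfl | ⟨_, h1⟩
        · rcases mem_ex_iff.1 hi' with h2 | ⟨_, h2⟩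
          · exact hne h2
          · exact hwZ h2
        · rcases mem_ex_iff.1 hi' with rfl | ⟨_, h2⟩
          · exact hw'T h1
          · exact Finset.disjoint_left.1 hd h1 h2
      · rw [ex_sum x hz hw'Z, hZ0]; linarith
    · exact Finset.mem_product.2 ⟨mem_ex, mem_ex⟩
  · rintro ⟨⟨T, Z⟩, ⟨⟨t, w⟩, ⟨z, w'⟩⟩⟩ hq ⟨⟨T₂, Z₂⟩, ⟨⟨t₂, w₂⟩, ⟨z₂, w₂'⟩⟩⟩ hq₂ heq
    have hq' := Finset.mem_sigma.1 hq
    obtain ⟨hTA, hTc, hT0, hZA, hd, hZc, hZ0⟩ := mem_pr.1 hq'.1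
    have hm := Finset.mem_filter.1 hq'.2
    simp only [Finset.mem_product, Finset.mem_sdiff, Finset.mem_union, not_or] at hm
    obtain ⟨⟨⟨ht, hwA, hwT, hwZ⟩, hz, hw'A, hw'T, hw'Z⟩, hlt, hlt', hne⟩ := hm
    have hq₂' := Finset.mem_sigma.1 hq₂
    obtain ⟨hTA₂, hTc₂, hT0₂, hZA₂, hd₂, hZc₂, hZ0₂⟩ := mem_pr.1 hq₂'.1
    have hm₂ := Finset.mem_filter.1 hq₂'.2
    simp only [Finset.mem_product, Finset.mem_sdiff, Finset.mem_union, not_or] at hm₂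
    obtain ⟨⟨⟨ht₂, hwA₂, hwT₂, hwZ₂⟩, hz₂, hw'A₂, hw'T₂, hw'Z₂⟩, hlt₂, hlt₂', hne₂⟩ := hm₂
    simp only [Sigma.mk.injEq, heq_eq_eq, Prod.mk.injEq] at heq
    obtain ⟨⟨h1, h2⟩, h3, h4⟩ := heq
    subst h3; subst h4
    have s1 := ex_sum x ht hwT
    have s1' := ex_sum x ht₂ hwT₂
    rw [h1, s1', hT0₂, hT0] at s1
    have t1 : t = t₂ := hinj (hTA ht) (hTA₂ ht₂) (by linarith)
    subst t1
    have s2 := ex_sum x hz hw'Z
    have s2' := ex_sum x hz₂ hw'Z₂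
    rw [h2, s2', hZ0₂, hZ0] at s2
    have t2 : z = z₂ := hinj (hZA hz) (hZA₂ hz₂) (by linarith)
    subst t2
    have u1 : T = T₂ := by rw [← ex_back ht hwT, h1, ex_back ht₂ hwT₂]
    have u2 : Z = Z₂ := by rw [← ex_back hz hw'Z, h2, ex_back hz₂ hw'Z₂]
    subst u1; subst u2
    rfl

/-- Moves of type B inject into the pairs of positive sets with a marked element in the first. -/
lemma count_B (x : ι → ℝ) (A : Finset ι) (k : ℕ) (hinj : Set.InjOn x A) :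
    ∑ p ∈ pr A k (fun S => ∑ i ∈ S, x i = 0), (Bm x p.1 p.2 (A \ (p.1 ∪ p.2))).card
      ≤ k * (pr A k (fun S => 0 < ∑ i ∈ S, x i)).card := by
  rw [← Finset.card_sigma]
  have e1 : k * (pr A k (fun S => 0 < ∑ i ∈ S, x i)).card
      = ((pr A k (fun S => 0 < ∑ i ∈ S, x i)).sigma (fun p => p.1)).card := by
    rw [Finset.card_sigma, Finset.sum_congr rfl (g := fun _ => k), Finset.sum_const,
      smul_eq_mul, mul_comm]
    rintro ⟨T, Z⟩ hp
    exact (mem_pr.1 hp).2.1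
  rw [e1]
  apply Finset.card_le_card_of_injOn
    (fun q => ⟨⟨ex q.1.1 q.2.1 q.2.2.1, ex q.1.2 q.2.2.1 q.2.2.2⟩, q.2.2.1⟩)
  · rintro ⟨⟨T, Z⟩, ⟨t, z, w⟩⟩ hq
    have hq' := Finset.mem_sigma.1 hq
    obtain ⟨hTA, hTc, hT0, hZA, hd, hZc, hZ0⟩ := mem_pr.1 hq'.1
    have hm := Finset.mem_filter.1 hq'.2
    simp only [Finset.mem_product, Finset.mem_sdiff, Finset.mem_union, not_or] at hm
    obtain ⟨⟨ht, hz, hwA, hwT, hwZ⟩, hlt, hlt'⟩ := hm
    have hzT : z ∉ T := fun h => Finset.disjoint_left.1 hd h hz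
    refine Finset.mem_coe.2 (Finset.mem_sigma.2 ⟨?_, ?_⟩)
    · refine mem_pr.2 ⟨ex_subset hTA (hZA hz), by rw [ex_card ht hzT, hTc], ?_,
        ex_subset hZA hwA, ?_, by rw [ex_card hz hwZ, hZc], ?_⟩
      · rw [ex_sum x ht hzT, hT0]; linarith
      · rw [Finset.disjoint_left]
        intro i hi hi'
        rcases mem_ex_iff.1 hi with rfl | ⟨_, h1⟩
        · rcases mem_ex_iff.1 hi' with h2 | ⟨h2, _⟩
          · have h2' : i = w := h2
            exact hwZ (h2' ▸ hz)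
          · exact h2 rfl
        · rcases mem_ex_iff.1 hi' with rfl | ⟨_, h2⟩
          · exact hwT h1
          · exact Finset.disjoint_left.1 hd h1 h2
      · rw [ex_sum x hz hwZ, hZ0]; linarith
    · exact mem_ex
  · rintro ⟨⟨T, Z⟩, ⟨t, z, w⟩⟩ hq ⟨⟨T₂, Z₂⟩, ⟨t₂, z₂, w₂⟩⟩ hq₂ heq
    have hq' := Finset.mem_sigma.1 hq
    obtain ⟨hTA, hTc, hT0, hZA, hd, hZc, hZ0⟩ := mem_pr.1 hq'.1
    have hm := Finset.mem_filter.1 hq'.2
    simp only [Finset.mem_product, Finset.mem_sdiff, Finset.mem_union, not_or] at hm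
    obtain ⟨⟨ht, hz, hwA, hwT, hwZ⟩, hlt, hlt'⟩ := hm
    have hzT : z ∉ T := fun h => Finset.disjoint_left.1 hd h hz
    have hq₂' := Finset.mem_sigma.1 hq₂
    obtain ⟨hTA₂, hTc₂, hT0₂, hZA₂, hd₂, hZc₂, hZ0₂⟩ := mem_pr.1 hq₂'.1
    have hm₂ := Finset.mem_filter.1 hq₂'.2
    simp only [Finset.mem_product, Finset.mem_sdiff, Finset.mem_union, not_or] at hm₂
    obtain ⟨⟨ht₂, hz₂, hwA₂, hwT₂, hwZ₂⟩, hlt₂, hlt₂'⟩ := hm₂
    have hzT₂ : z₂ ∉ T₂ := fun h => Finset.disjoint_left.1 hd₂ h hz₂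
    simp only [Sigma.mk.injEq, heq_eq_eq] at heq
    obtain ⟨⟨h1, h2⟩, h3⟩ := heq
    subst h3
    have s1 := ex_sum x ht hzT
    have s1' := ex_sum x ht₂ hzT₂
    rw [h1, s1', hT0₂, hT0] at s1
    have t1 : t = t₂ := hinj (hTA ht) (hTA₂ ht₂) (by linarith)
    subst t1
    have s2 := ex_sum x hz hwZ
    have s2' := ex_sum x hz₂ hwZ₂
    rw [h2, s2', hZ0₂, hZ0] at s2
    have t2 : w = w₂ := hinj hwA hwA₂ (by linarith)
    subst t2
    have u1 : T = T₂ := by rw [← ex_back ht hzT, h1, ex_back ht₂ hzT₂]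
    have u2 : Z = Z₂ := by rw [← ex_back hz hwZ, h2, ex_back hz₂ hwZ₂]
    subst u1; subst u2
    rfl

/-- swapping the two sets of a pair -/
lemma pr_symm (x : ι → ℝ) (A : Finset ι) (k : ℕ) :
    ∑ p ∈ pr A k (fun S => ∑ i ∈ S, x i = 0), (Bm x p.2 p.1 (A \ (p.1 ∪ p.2))).card
      = ∑ p ∈ pr A k (fun S => ∑ i ∈ S, x i = 0), (Bm x p.1 p.2 (A \ (p.1 ∪ p.2))).card := by
  refine Finset.sum_bij' (fun p _ => ⟨p.2, p.1⟩) (fun p _ => ⟨p.2, p.1⟩) ?_ ?_ ?_ ?_ ?_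
  · rintro ⟨T, Z⟩ hp
    obtain ⟨h1, h2, h3, h4, h5, h6, h7⟩ := mem_pr.1 hp
    exact mem_pr.2 ⟨h4, h6, h7, h1, h5.symm, h2, h3⟩
  · rintro ⟨T, Z⟩ hp
    obtain ⟨h1, h2, h3, h4, h5, h6, h7⟩ := mem_pr.1 hp
    exact mem_pr.2 ⟨h4, h6, h7, h1, h5.symm, h2, h3⟩
  · rintro ⟨T, Z⟩ _; rfl
  · rintro ⟨T, Z⟩ _; rfl
  · rintro ⟨T, Z⟩ _
    simp only [Finset.union_comm]

/-- many pairs of positive sets, if there are many pairs of zero sets -/
theorem pairs_bound (x : ι → ℝ) (A : Finset ι) (k : ℕ) (hk : 2 ≤ k) (hinj : Set.InjOn x A)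
    (hs : ∑ i ∈ A, x i = 0) (hA : 5 * k ≤ A.card) :
    (pr A k (fun S => ∑ i ∈ S, x i = 0)).card
      ≤ 4 * (pr A k (fun S => 0 < ∑ i ∈ S, x i)).card := by
  set D := pr A k (fun S => ∑ i ∈ S, x i = 0) with hD
  set P := pr A k (fun S => 0 < ∑ i ∈ S, x i) with hP
  have h1 : ∀ p ∈ D, k ^ 2 ≤ 2 * (Am x p.1 p.2 (A \ (p.1 ∪ p.2))).card
      + k * ((Bm x p.1 p.2 (A \ (p.1 ∪ p.2))).card + (Bm x p.2 p.1 (A \ (p.1 ∪ p.2))).card) := by
    rintro ⟨T, Z⟩ hp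
    obtain ⟨hTA, hTc, hT0, hZA, hd, hZc, hZ0⟩ := mem_pr.1 hp
    have hU : T ∪ Z ⊆ A := Finset.union_subset hTA hZA
    have hUc : (A \ (T ∪ Z)).card = A.card - 2 * k := by
      rw [Finset.card_sdiff_of_subset hU, Finset.card_union_of_disjoint hd, hTc, hZc]
      omega
    have hUs : ∑ i ∈ A \ (T ∪ Z), x i = 0 := by
      have e1 := Finset.sum_sdiff (f := x) hU
      rw [Finset.sum_union hd, hT0, hZ0] at e1
      linarith
    have hUc3 : 3 * k ≤ (A \ (T ∪ Z)).card := by rw [hUc]; omega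
    exact local_bound x T Z _ k hk hTc hZc hUc3 hT0 hZ0 hUs
      (hinj.mono (by exact_mod_cast hTA)) (hinj.mono (by exact_mod_cast hZA))
      (hinj.mono (by exact_mod_cast (Finset.sdiff_subset : A \ (T ∪ Z) ⊆ A)))
      (fun a ha b hb h => by
        have := hinj (hTA ha) (hZA hb) h
        subst this
        exact Finset.disjoint_left.1 hd ha hb)
  have h2 := Finset.sum_le_sum h1
  rw [Finset.sum_const, smul_eq_mul, Finset.sum_add_distrib, ← Finset.mul_sum,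
    ← Finset.mul_sum, Finset.sum_add_distrib, pr_symm x A k] at h2
  have hA' := count_A x A k hinj
  have hB' := count_B x A k hinj
  rw [← hD, ← hP] at hA' hB'
  have h3 : D.card * k ^ 2 ≤ 2 * (k ^ 2 * P.card) + k * (k * P.card + k * P.card) := by
    refine h2.trans (Nat.add_le_add (Nat.mul_le_mul_left 2 hA') (Nat.mul_le_mul_left k ?_))
    exact Nat.add_le_add hB' hB'
  have h4 : D.card * k ^ 2 ≤ (4 * P.card) * k ^ 2 := by
    calc D.card * k ^ 2 ≤ 2 * (k ^ 2 * P.card) + k * (k * P.card + k * P.card) := h3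
      _ = (4 * P.card) * k ^ 2 := by ring
  exact Nat.le_of_mul_le_mul_right h4 (by positivity)

end Pool.Agent.Work.MaxSums.Transfer
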