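import Pool.Agent.Work.MP_9999b5_ms_helper84.Transfer2
import Pool.Agent.Work.MP_9999b5_ms_helper84.Top
import Pool.Agent.Work.MP_9999b5_ms_helper93.Recursion

set_option autoImplicit false

namespace Pool.Agent.Work.MaxSums

open Finset Filter Topology

namespace Transfer

variable {ι : Type} [DecidableEq ι]

lemma MMS_finset {k n : ℕ} (hM : MMS k n) (A : Finset ι) (x : ι → ℝ) (hA : A.card = n)
    (hs : 0 ≤ ∑ i ∈ A, x i) :
    (n - 1).choose (k - 1) ≤ ((A.powersetCard k).filter (fun S => 0 ≤ ∑ i ∈ S, x i)).card := by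
  subst hA
  set e : Fin A.card ≃ A := A.equivFin.symm with he
  set f : Fin A.card ↪ ι := e.toEmbedding.trans (Function.Embedding.subtype _) with hf
  have hfe : ∀ i, f i = (e i : ι) := fun i => rfl
  have hsum : ∑ i, x (f i) = ∑ i ∈ A, x i := by
    rw [← Finset.sum_coe_sort A]
    exact Fintype.sum_equiv e _ _ (fun i => rfl)
  refine (hM (fun i => x (f i)) (by rw [hsum]; exact hs)).trans ?_
  apply Finset.card_le_card_of_injOn (fun S => S.map f)
  · intro S hS
    have h1 := Finset.mem_filter.1 hS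
    have h2 := Finset.mem_powersetCard.1 h1.1
    refine Finset.mem_coe.2 (Finset.mem_filter.2 ⟨Finset.mem_powersetCard.2 ⟨?_, ?_⟩, ?_⟩)
    · intro i hi
      obtain ⟨j, _, rfl⟩ := Finset.mem_map.1 hi
      exact (e j).2
    · rw [Finset.card_map, h2.2]
    · rw [Finset.sum_map]; exact h1.2
  · intro S _ T _ h
    exact Finset.map_injective f h

/-- T1 -/
lemma pos_of_pos {k n : ℕ} (hk : 1 ≤ k) (hn : 1 ≤ n) (hM : MMS k n) (A : Finset ι) (x : ι → ℝ)
    (hA : A.card = n) (hs : 0 < ∑ i ∈ A, x i) : (n - 1).choose (k - 1) ≤ pos x A k := by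
  have hn0 : (0 : ℝ) < n := by exact_mod_cast hn
  set c : ℝ := (∑ i ∈ A, x i) / n with hc
  have hcpos : 0 < c := by positivity
  refine (MMS_finset hM A (fun i => x i - c) hA ?_).trans ?_
  · rw [Finset.sum_sub_distrib, Finset.sum_const, hA, nsmul_eq_mul, hc]
    field_simp
    simp
  · unfold pos
    apply Finset.card_le_card
    intro S hS
    have h1 := Finset.mem_filter.1 hS
    have h2 := (Finset.mem_powersetCard.1 h1.1).2
    refine Finset.mem_filter.2 ⟨h1.1, ?_⟩
    have h3 := h1.2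
    rw [Finset.sum_sub_distrib, Finset.sum_const, h2, nsmul_eq_mul] at h3
    have : 0 < (k : ℝ) * c := by
      have : (0 : ℝ) < k := by exact_mod_cast hk
      positivity
    linarith

/-- a small perturbation does not destroy strict inequalities -/
lemma small {α : Type} (F : Finset α) (u v : α → ℝ) :
    ∃ ε : ℝ, 0 < ε ∧ ∀ a ∈ F, u a < 0 → u a + ε * v a < 0 := by
  have h1 : ∀ᶠ ε in 𝓝[>] (0 : ℝ), ∀ a ∈ F, u a < 0 → u a + ε * v a < 0 := by
    rw [Finset.eventually_all]
    intro a _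
    by_cases h : u a < 0
    · have hcont : Tendsto (fun ε : ℝ => u a + ε * v a) (𝓝[>] 0) (𝓝 (u a + 0 * v a)) :=
        ((continuous_const.add (continuous_id.mul continuous_const)).tendsto 0).mono_left
          nhdsWithin_le_nhds
      rw [zero_mul, add_zero] at hcont
      exact (hcont.eventually_lt_const h).mono (fun ε hε _ => hε)
    · exact Filter.Eventually.of_forall (fun ε h' => absurd h' h)
  obtain ⟨ε, hε, h⟩ := (h1.and self_mem_nhdsWithin).exists
  exact ⟨ε, h, hε⟩

/-- T2 -/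
lemma pos_of_zero {k n : ℕ} (hk : 1 ≤ k) (hM : MMS k n) (A : Finset ι) (x : ι → ℝ)
    (hA : A.card = n) (hs : ∑ i ∈ A, x i = 0) (a : ι) (ha : a ∈ A) :
    (n - 1).choose (k - 1) ≤ pos x A k +
      (((A.powersetCard k).filter (fun S => ∑ i ∈ S, x i = 0)).filter (fun S => a ∈ S)).card := by
  obtain ⟨ε, hε, hsm⟩ := small (A.powersetCard k) (fun S => ∑ i ∈ S, x i)
    (fun S => (if a ∈ S then (n : ℝ) else 0) - k)
  have hsumy : ∀ S : Finset ι, ∑ i ∈ S, (x i + ε * ((if i = a then (n : ℝ) else 0) - 1))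
      = ∑ i ∈ S, x i + ε * ((if a ∈ S then (n : ℝ) else 0) - S.card) := by
    intro S
    rw [Finset.sum_add_distrib, ← Finset.mul_sum, Finset.sum_sub_distrib]
    congr 2
    rw [Finset.sum_ite_eq' S a, Finset.sum_const, nsmul_eq_mul, mul_one]
  refine (MMS_finset hM A (fun i => x i + ε * ((if i = a then (n : ℝ) else 0) - 1)) hA ?_).trans ?_
  · rw [hsumy, hs, if_pos ha, hA]; simp
  · unfold pos
    refine (Finset.card_le_card ?_).trans (Finset.card_union_le _ _)
    intro S hS
    have h1 := Finset.mem_filter.1 hS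
    have h2 := (Finset.mem_powersetCard.1 h1.1).2
    have h3 := h1.2
    rw [hsumy, h2] at h3
    rcases lt_trichotomy (∑ i ∈ S, x i) 0 with h | h | h
    · exfalso
      have := hsm S h1.1 h
      linarith
    · apply Finset.mem_union_right
      refine Finset.mem_filter.2 ⟨Finset.mem_filter.2 ⟨h1.1, h⟩, ?_⟩
      by_contra hcon
      rw [h, if_neg hcon] at h3
      have : (0 : ℝ) < k := by exact_mod_cast hk
      have : 0 < ε * k := by positivity
      linarith
    · exact Finset.mem_union_left _ (Finset.mem_filter.2 ⟨h1.1, h⟩)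

/-- T2, averaged -/
lemma pos_of_zero' {k n : ℕ} (hk : 1 ≤ k) (hM : MMS k n) (A : Finset ι) (x : ι → ℝ)
    (hA : A.card = n) (hs : ∑ i ∈ A, x i = 0) :
    n * (n - 1).choose (k - 1) ≤ n * pos x A k +
      k * ((A.powersetCard k).filter (fun S => ∑ i ∈ S, x i = 0)).card := by
  have h1 := Finset.sum_le_sum (fun a ha => pos_of_zero hk hM A x hA hs a ha)
  rw [Finset.sum_const, smul_eq_mul, hA, Finset.sum_add_distrib, Finset.sum_const, smul_eq_mul,
    hA] at h1
  set Z := (A.powersetCard k).filter (fun S => ∑ i ∈ S, x i = 0) with hZ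
  have h2 : ∑ a ∈ A, (Z.filter (fun S => a ∈ S)).card = k * Z.card := by
    simp_rw [Finset.card_filter]
    rw [Finset.sum_comm]
    have h3 : ∀ S ∈ Z, ∑ a ∈ A, (if a ∈ S then 1 else 0) = k := by
      intro S hS
      have h4 := Finset.mem_powersetCard.1 (Finset.mem_filter.1 hS).1
      rw [← Finset.card_filter, Finset.filter_mem_eq_inter, Finset.inter_eq_right.2 h4.1, h4.2]
    rw [Finset.sum_congr rfl h3, Finset.sum_const, smul_eq_mul, mul_comm]
  rw [h2] at h1
  exact h1

theorem transfer {k n : ℕ} (hk : 2 ≤ k) (hn : 4 * k ≤ n) (hM : MMS k n) (A : Finset ι)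
    (x : ι → ℝ) (hA : A.card = n + k) (hinj : Set.InjOn x A) (hs : ∑ i ∈ A, x i = 0) :
    (n + k - 1).choose (k - 1) ≤ pos x A k := by
  set M := (n - 1).choose (k - 1) with hMdef
  have hd := helper93Recursion.double A x k
  rw [hA, Nat.add_sub_cancel] at hd
  set Sp := (A.powersetCard k).filter (fun S => 0 < ∑ i ∈ S, x i) with hSp
  set Sz := (A.powersetCard k).filter (fun S => ∑ i ∈ S, x i = 0) with hSz
  set Sn := (A.powersetCard k).filter (fun S => ∑ i ∈ S, x i < 0) with hSn
  have hpc : pos x A k = Sp.card := rfl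
  have hsplit : ∀ f : Finset ι → ℕ, ∑ T ∈ A.powersetCard k, f T
      = ∑ T ∈ Sp, f T + (∑ T ∈ Sz, f T + ∑ T ∈ Sn, f T) := by
    intro f
    rw [← Finset.sum_filter_add_sum_filter_not (A.powersetCard k) (fun S => 0 < ∑ i ∈ S, x i)]
    congr 1
    rw [← Finset.sum_filter_add_sum_filter_not _ (fun S => ∑ i ∈ S, x i = 0)]
    rw [Finset.filter_filter, Finset.filter_filter]
    congr 1
    · apply Finset.sum_congr _ (fun _ _ => rfl)
      apply Finset.filter_congr
      intro S _
      constructor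
      · rintro ⟨_, h⟩; exact h
      · intro h; exact ⟨by rw [h]; exact lt_irrefl 0, h⟩
    · apply Finset.sum_congr _ (fun _ _ => rfl)
      apply Finset.filter_congr
      intro S _
      constructor
      · rintro ⟨h1, h2⟩; exact lt_of_le_of_ne (not_lt.1 h1) h2
      · intro h; exact ⟨not_lt.2 h.le, ne_of_lt h⟩
  have hTc : ∀ T ∈ A.powersetCard k, (A \ T).card = n := by
    intro T hT
    have h := Finset.mem_powersetCard.1 hT
    rw [Finset.card_sdiff_of_subset h.1, hA, h.2, Nat.add_sub_cancel]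
  have hcard := hsplit (fun _ => 1)
  simp only [Finset.sum_const, smul_eq_mul, mul_one] at hcard
  rw [Finset.card_powersetCard, hA] at hcard
  rw [hsplit] at hd
  -- negative T
  have hneg : Sn.card * M ≤ ∑ T ∈ Sn, pos x (A \ T) k := by
    rw [← smul_eq_mul]
    apply Finset.card_nsmul_le_sum
    intro T hT
    have h := Finset.mem_filter.1 hT
    apply pos_of_pos (by omega) (by omega) hM _ _ (hTc T h.1)
    have := Finset.sum_sdiff (f := x) (Finset.mem_powersetCard.1 h.1).1
    linarith [h.2]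
  -- zero T
  have hzero : Sz.card * (n * M) ≤ n * ∑ T ∈ Sz, pos x (A \ T) k
      + k * (pr A k (fun S => ∑ i ∈ S, x i = 0)).card := by
    have h1 : ∀ T ∈ Sz, n * M ≤ n * pos x (A \ T) k +
        k * (((A \ T).powersetCard k).filter (fun S => ∑ i ∈ S, x i = 0)).card := by
      intro T hT
      have h := Finset.mem_filter.1 hT
      apply pos_of_zero' (by omega) hM _ _ (hTc T h.1)
      have := Finset.sum_sdiff (f := x) (Finset.mem_powersetCard.1 h.1).1
      linarith [h.2]
    have h2 := Finset.card_nsmul_le_sum _ _ _ h1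
    rw [smul_eq_mul, Finset.sum_add_distrib, ← Finset.mul_sum, ← Finset.mul_sum] at h2
    refine h2.trans (le_of_eq ?_)
    congr 2
    unfold pr
    rw [Finset.card_sigma]
  -- positive T
  have hpos : ∑ T ∈ Sp, pos x (A \ T) k = (pr A k (fun S => 0 < ∑ i ∈ S, x i)).card := by
    unfold pr
    rw [Finset.card_sigma]
    rfl
  have hpb := pairs_bound x A k hk hinj hs (by omega)
  set D := (pr A k (fun S => ∑ i ∈ S, x i = 0)).card with hDdef
  set P := (pr A k (fun S => 0 < ∑ i ∈ S, x i)).card with hPdef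
  have hDP : k * D ≤ n * P := by
    calc k * D ≤ k * (4 * P) := Nat.mul_le_mul_left k hpb
      _ = (4 * k) * P := by ring
      _ ≤ n * P := Nat.mul_le_mul_right P hn
  -- conclusion over the reals
  have hch1 : (k : ℝ) * (n.choose k : ℝ) = (n : ℝ) * (M : ℝ) := by
    obtain ⟨l, rfl⟩ : ∃ l, k = l + 1 := ⟨k - 1, by omega⟩
    obtain ⟨m, rfl⟩ : ∃ m, n = m + 1 := ⟨n - 1, by omega⟩
    have := Nat.add_one_mul_choose_eq m l
    rw [hMdef]
    simp only [Nat.add_sub_cancel]
    have h2 : ((m + 1 : ℕ) : ℝ) * (m.choose l : ℝ)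
        = ((m + 1).choose (l + 1) : ℝ) * ((l + 1 : ℕ) : ℝ) := by exact_mod_cast this
    linarith
  have hch2 : (k : ℝ) * ((n + k).choose k : ℝ) = ((n : ℝ) + k) * ((n + k - 1).choose (k - 1) : ℝ) := by
    obtain ⟨l, rfl⟩ : ∃ l, k = l + 1 := ⟨k - 1, by omega⟩
    obtain ⟨m, rfl⟩ : ∃ m, n = m + 1 := ⟨n - 1, by omega⟩
    have := Nat.add_one_mul_choose_eq (m + 1 + l) l
    have e : m + 1 + (l + 1) - 1 = m + 1 + l := by omega
    rw [e]
    simp only [Nat.add_sub_cancel]
    have h2 : ((m + 1 + l + 1 : ℕ) : ℝ) * ((m + 1 + l).choose l : ℝ)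
        = ((m + 1 + l + 1).choose (l + 1) : ℝ) * ((l + 1 : ℕ) : ℝ) := by exact_mod_cast this
    have e2 : m + 1 + (l + 1) = m + 1 + l + 1 := by ring
    rw [e2]
    push_cast at h2 ⊢
    linarith
  have hMpos : (0 : ℝ) < M := by
    rw [hMdef]; exact_mod_cast Nat.choose_pos (by omega)
  have hkpos : (0 : ℝ) < k := by exact_mod_cast (by omega : 0 < k)
  have hnpos : (0 : ℝ) < n := by exact_mod_cast (by omega : 0 < n)
  rw [hpos, hpc] at hd
  have r1 : (P : ℝ) + ((∑ T ∈ Sz, pos x (A \ T) k : ℕ) + (∑ T ∈ Sn, pos x (A \ T) k : ℕ) : ℝ)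
      = (Sp.card : ℝ) * (n.choose k : ℝ) := by exact_mod_cast hd
  have r2 : (Sn.card : ℝ) * M ≤ ((∑ T ∈ Sn, pos x (A \ T) k : ℕ) : ℝ) := by exact_mod_cast hneg
  have r3 : (Sz.card : ℝ) * (n * M) ≤ n * ((∑ T ∈ Sz, pos x (A \ T) k : ℕ) : ℝ) + k * (D : ℝ) := by
    exact_mod_cast hzero
  have r4 : (k : ℝ) * D ≤ n * P := by exact_mod_cast hDP
  have r5 : (((n + k).choose k : ℕ) : ℝ) = Sp.card + (Sz.card + Sn.card) := by
    exact_mod_cast hcard
  have r6 : (n : ℝ) * (M * (Sz.card + Sn.card)) ≤ (n : ℝ) * ((Sp.card : ℝ) * (n.choose k : ℝ)) := by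
    have := mul_le_mul_of_nonneg_left r2 hnpos.le
    rw [← r1]
    linarith
  have r7 := le_of_mul_le_mul_left r6 hnpos
  have r8 : M * ((k : ℝ) * (Sz.card + Sn.card)) ≤ M * ((n : ℝ) * Sp.card) := by
    have := mul_le_mul_of_nonneg_left r7 hkpos.le
    have e1 : (k : ℝ) * ((Sp.card : ℝ) * (n.choose k : ℝ)) = Sp.card * ((n : ℝ) * M) := by
      rw [← hch1]; ring
    rw [e1] at this
    linarith
  have r9 := le_of_mul_le_mul_left r8 hMpos
  have r10 : ((n : ℝ) + k) * ((n + k - 1).choose (k - 1) : ℝ) ≤ ((n : ℝ) + k) * Sp.card := by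
    rw [← hch2, r5]
    linarith
  have r11 := le_of_mul_le_mul_left r10 (by positivity)
  rw [hpc]
  exact_mod_cast r11

end Transfer

end Pool.Agent.Work.MaxSums
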